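import Mathlib
import Pool.Agent.P.MP_d0f95c_al.Defs

-- part Pool.Agent.P.MP_d0f95c_al.Char
section

set_option autoImplicit false

open Subgroup Module

namespace Pool.Agent.P.MP_d0f95c_al

open scoped Classical

variable {G : Type} [Group G] [Fintype G]

def IsChar (H : Subgroup G) (χ : G → ℂ) : Prop :=
  ∃ (V : Type) (_ : AddCommGroup V) (_ : Module ℂ V) (_ : FiniteDimensional ℂ V)
    (ρ : Representation ℂ H V), ∀ x : H, χ x = ρ.character x

def IsIrr (H : Subgroup G) (χ : G → ℂ) : Prop :=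
  (∃ (V : Type) (_ : AddCommGroup V) (_ : Module ℂ V) (_ : FiniteDimensional ℂ V)
    (ρ : Representation ℂ H V), ρ.IsIrreducible ∧ ∀ x : H, χ x = ρ.character x) ∧
  ∀ x, x ∉ H → χ x = 0

noncomputable def ip (H : Subgroup G) (χ ψ : G → ℂ) : ℂ :=
  (Nat.card H : ℂ)⁻¹ * ∑ x : H, χ x * ψ (x : G)⁻¹

def Scal (H : Subgroup G) (χ : G → ℂ) (x : G) (z : ℂ) : Prop :=
  ∀ y ∈ H, χ (x * y) = z * χ y

def Dec (H : Subgroup G) (χ : G → ℂ) (s : Multiset (G → ℂ)) : Prop :=
  (∀ ψ ∈ s, IsIrr H ψ) ∧ ∀ x ∈ H, χ x = (s.map (fun ψ => ψ x)).sum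

noncomputable def deg (χ : G → ℂ) : ℕ := ⌊(χ 1).re⌋₊

noncomputable def extz (H : Subgroup G) (φ : H → ℂ) : G → ℂ :=
  fun x => if h : x ∈ H then φ ⟨x, h⟩ else 0

omit [Fintype G] in
lemma extz_coe (H : Subgroup G) (φ : H → ℂ) (x : H) : extz H φ x = φ x := by
  simp [extz]

omit [Fintype G] in
lemma IsIrr.isChar {H : Subgroup G} {χ : G → ℂ} (h : IsIrr H χ) : IsChar H χ := by
  obtain ⟨⟨V, _, _, _, ρ, _, h⟩, _⟩ := h
  exact ⟨V, _, _, inferInstance, ρ, h⟩

omit [Fintype G] in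
lemma IsChar.deg_eq {H : Subgroup G} {χ : G → ℂ} (h : IsChar H χ) : (deg χ : ℂ) = χ 1 := by
  obtain ⟨V, _, _, _, ρ, h⟩ := h
  have := h 1
  simp only [OneMemClass.coe_one, Representation.char_one] at this
  simp [deg, this]

omit [Fintype G] in
lemma IsChar.mono {H M : Subgroup G} {χ : G → ℂ} (h : IsChar H χ) (hM : M ≤ H) : IsChar M χ := by
  obtain ⟨V, _, _, _, ρ, h⟩ := h
  exact ⟨V, _, _, inferInstance, ρ.comp (inclusion hM), fun x => h (inclusion hM x)⟩

omit [Fintype G] in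
lemma IsChar.conj {H : Subgroup G} {χ : G → ℂ} (h : IsChar H χ) {x y : G} (hx : x ∈ H)
    (hy : y ∈ H) : χ (y * x * y⁻¹) = χ x := by
  obtain ⟨V, _, _, _, ρ, h⟩ := h
  have := ρ.char_conj ⟨x, hx⟩ ⟨y, hy⟩
  rw [← h, ← h] at this
  exact this

omit [Fintype G] in
lemma isChar_one (H : Subgroup G) : IsChar H (fun _ => 1) :=
  ⟨ℂ, _, _, inferInstance, Representation.trivial ℂ H ℂ, fun x => by
    simp [Representation.character]⟩

lemma card_ne (H : Subgroup G) : (Nat.card H : ℂ) ≠ 0 := by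
  exact_mod_cast (Nat.card_pos (α := H)).ne'

lemma ip_nat {H : Subgroup G} {χ ψ : G → ℂ} (h1 : IsChar H χ) (h2 : IsChar H ψ) :
    ∃ n : ℕ, ip H χ ψ = n := by
  obtain ⟨V, _, _, _, ρ, h1⟩ := h1
  obtain ⟨W, _, _, _, σ, h2⟩ := h2
  let _ := invertibleOfNonzero (card_ne H)
  refine ⟨_, Eq.trans ?_ (Representation.card_inv_mul_sum_char_mul_char_eq_finrank σ ρ)⟩
  unfold ip
  congr 1
  apply Finset.sum_congr rfl
  intro x _
  rw [← h1, ← h2]; rfl

lemma ip_irr {H : Subgroup G} {χ ψ : G → ℂ} (h1 : IsIrr H χ) (h2 : IsIrr H ψ) :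
    ip H χ ψ = if χ = ψ then 1 else 0 := by
  obtain ⟨⟨V, _, _, _, ρ, hρ, h1⟩, h1'⟩ := h1
  obtain ⟨⟨W, _, _, _, σ, hσ, h2⟩, h2'⟩ := h2
  let _ := invertibleOfNonzero (card_ne H)
  split_ifs with h
  · subst h
    have := Representation.char_orthonormal ρ ρ
    rw [if_pos ⟨Representation.Equiv.refl ρ⟩] at this
    refine Eq.trans ?_ this
    unfold ip
    congr 1
    apply Finset.sum_congr rfl
    intro x _
    rw [← h1, ← h1]; rfl
  · have := Representation.char_orthonormal ρ σ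
    rw [if_neg] at this
    · refine Eq.trans ?_ this
      unfold ip
      congr 1
      apply Finset.sum_congr rfl
      intro x _
      rw [← h1, ← h2]; rfl
    · rintro ⟨e⟩
      apply h
      funext x
      by_cases hx : x ∈ H
      · rw [h1 ⟨x, hx⟩, h2 ⟨x, hx⟩, Representation.char_iso e]
      · rw [h1' x hx, h2' x hx]

omit [Fintype G] in
lemma IsIrr.deg_pos {H : Subgroup G} {χ : G → ℂ} (h : IsIrr H χ) : 0 < deg χ := by
  have h0 := h.isChar.deg_eq
  obtain ⟨⟨V, _, _, _, ρ, hρ, h⟩, _⟩ := h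
  have h1 := h 1
  simp only [OneMemClass.coe_one, Representation.char_one] at h1
  rw [h1] at h0
  have h2 : deg χ = finrank ℂ V := by exact_mod_cast h0
  rw [h2, finrank_pos_iff]
  by_contra hn
  rw [not_nontrivial_iff_subsingleton] at hn
  have : (⊥ : Subrepresentation ρ) = ⊤ := by
    apply Subrepresentation.toSubmodule_injective
    exact Subsingleton.elim _ _
  exact bot_ne_top this

omit [Fintype G] in
lemma IsIrr.one_ne {H : Subgroup G} {χ : G → ℂ} (h : IsIrr H χ) : χ 1 ≠ 0 := by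
  rw [← h.isChar.deg_eq]
  exact_mod_cast h.deg_pos.ne'

lemma char_add {H V : Type} [Group H] [AddCommGroup V] [Module ℂ V] [FiniteDimensional ℂ V]
    (ρ : Representation ℂ H V) (W W' : Subrepresentation ρ) (h : IsCompl W.toSubmodule W'.toSubmodule)
    (x : H) : ρ.character x = W.toRepresentation.character x + W'.toRepresentation.character x := by
  unfold Representation.character
  rw [← LinearMap.trace_prodMap', ← LinearMap.trace_conj' _ (Submodule.prodEquivOfIsCompl _ _ h)]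
  congr 1
  apply LinearMap.ext
  intro v
  obtain ⟨⟨a, b⟩, rfl⟩ := (Submodule.prodEquivOfIsCompl _ _ h).surjective v
  simp [LinearEquiv.conj_apply, Subrepresentation.toRepresentation]

lemma sub_scalar {H V : Type} [Group H] [Fintype H] [AddCommGroup V] [Module ℂ V]
    (ρ : Representation ℂ H V) (W : Subrepresentation ρ) (F : H → ℂ) (c : ℂ)
    (h : ∑ x, F x • ρ x = c • (1 : V →ₗ[ℂ] V)) :
    ∑ x, F x • W.toRepresentation x = c • (1 : W.toSubmodule →ₗ[ℂ] W.toSubmodule) := by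
  apply LinearMap.ext
  intro v
  apply Subtype.ext
  have := LinearMap.congr_fun h v.1
  simpa [LinearMap.sum_apply, Subrepresentation.toRepresentation] using this

lemma decomp (H : Subgroup G) (n : ℕ) : ∀ (V : Type) [AddCommGroup V] [Module ℂ V]
    [FiniteDimensional ℂ V] (ρ : Representation ℂ H V), finrank ℂ V = n →
    ∃ s : Multiset (G → ℂ), (∀ ψ ∈ s, IsIrr H ψ ∧ ∀ (F : H → ℂ) (c : ℂ),
      (∑ x, F x • ρ x = c • (1 : V →ₗ[ℂ] V)) → ∀ y : H, ∑ x, F x * ψ (x * y) = c * ψ y) ∧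
      ∀ x : H, ρ.character x = (s.map (fun ψ => ψ x)).sum := by
  induction n using Nat.strong_induction_on with
  | _ n ih =>
    intro V _ _ _ ρ hn
    by_cases h0 : Nontrivial V
    swap
    · rw [not_nontrivial_iff_subsingleton] at h0
      refine ⟨0, by simp, fun x => ?_⟩
      have : ρ x = 0 := Subsingleton.elim _ _
      simp [Representation.character, this]
    by_cases hirr : ρ.IsIrreducible
    · refine ⟨{extz H ρ.character}, ?_, fun x => by simp [extz_coe]⟩
      intro ψ hψ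
      rw [Multiset.mem_singleton] at hψ
      subst hψ
      refine ⟨⟨⟨V, _, _, inferInstance, ρ, hirr, extz_coe H _⟩, fun x hx => by simp [extz, hx]⟩, ?_⟩
      intro F c h y
      have h2 := congrArg (fun T => LinearMap.trace ℂ V (T * ρ y)) h
      simp only [Finset.sum_mul, smul_mul_assoc, map_sum, map_smul, one_mul, smul_eq_mul] at h2
      rw [extz_coe]
      refine Eq.trans ?_ h2
      apply Finset.sum_congr rfl
      intro x _
      rw [← Subgroup.coe_mul, extz_coe, ← map_mul]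
      rfl
    · have hnt : Nontrivial (Subrepresentation ρ) := ⟨⊥, ⊤, fun h => by
        have := congrArg Subrepresentation.toSubmodule h
        exact bot_ne_top (α := Submodule ℂ V) this⟩
      have : ∃ W : Subrepresentation ρ, W ≠ ⊥ ∧ W ≠ ⊤ := by
        by_contra hc
        apply hirr
        refine ⟨fun W => ?_⟩
        by_contra hW
        exact hc ⟨W, fun h => hW (Or.inl h), fun h => hW (Or.inr h)⟩
      obtain ⟨W, hW0, hW1⟩ := this
      have : NeZero (Nat.card H : ℂ) := ⟨card_ne H⟩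
      obtain ⟨W', hc⟩ := exists_isCompl W
      have hc' : IsCompl W.toSubmodule W'.toSubmodule := by
        constructor
        · rw [disjoint_iff, ← Subrepresentation.toSubmodule_inf, hc.inf_eq_bot]; rfl
        · rw [codisjoint_iff, ← Subrepresentation.toSubmodule_sup, hc.sup_eq_top]; rfl
      have hW1' : W' ≠ ⊤ := by
        rintro rfl
        exact hW0 (by simpa using hc.inf_eq_bot)
      have hlt : ∀ X : Subrepresentation ρ, X ≠ ⊤ → finrank ℂ X.toSubmodule < n := by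
        intro X hX
        rw [← hn]
        apply Submodule.finrank_lt
        intro h
        exact hX (Subrepresentation.toSubmodule_injective h)
      obtain ⟨s, hs, hs'⟩ := ih _ (hlt W hW1) _ W.toRepresentation rfl
      obtain ⟨t, ht, ht'⟩ := ih _ (hlt W' hW1') _ W'.toRepresentation rfl
      refine ⟨s + t, ?_, fun x => ?_⟩
      · intro ψ hψ
        rcases Multiset.mem_add.1 hψ with h | h
        · exact ⟨(hs ψ h).1, fun F c hF => (hs ψ h).2 F c (sub_scalar ρ W F c hF)⟩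
        · exact ⟨(ht ψ h).1, fun F c hF => (ht ψ h).2 F c (sub_scalar ρ W' F c hF)⟩
      · rw [char_add ρ W W' hc', hs', ht']; simp

lemma IsChar.exists_dec {H : Subgroup G} {χ : G → ℂ} (h : IsChar H χ) : ∃ s, Dec H χ s := by
  obtain ⟨V, _, _, _, ρ, h⟩ := h
  obtain ⟨s, hs, hs'⟩ := decomp H _ V ρ rfl
  exact ⟨s, fun ψ hψ => (hs ψ hψ).1, fun x hx => (h ⟨x, hx⟩).trans (hs' ⟨x, hx⟩)⟩

lemma ip_sum {H M : Subgroup G} (hM : M ≤ H) {χ : G → ℂ} {s : Multiset (G → ℂ)}
    (h : ∀ x ∈ H, χ x = (s.map (fun ψ => ψ x)).sum) (φ : G → ℂ) :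
    ip M χ φ = (s.map (fun ψ => ip M ψ φ)).sum := by
  have e : ip M χ φ = (Nat.card M : ℂ)⁻¹ * ∑ x : M, (s.map (fun ψ => ψ x)).sum * φ (x : G)⁻¹ := by
    unfold ip
    congr 1
    apply Finset.sum_congr rfl
    intro x _
    rw [h x (hM x.2)]
  rw [e]
  clear e h
  induction s using Multiset.induction_on with
  | empty => simp
  | cons a s ih =>
    simp only [Multiset.map_cons, Multiset.sum_cons, add_mul, Finset.sum_add_distrib, mul_add, ih]
    rfl

lemma Dec.count {H : Subgroup G} {χ : G → ℂ} {s : Multiset (G → ℂ)} (h : Dec H χ s)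
    {φ : G → ℂ} (hφ : IsIrr H φ) : ip H χ φ = s.count φ := by
  rw [ip_sum le_rfl h.2]
  have h1 := h.1
  clear h
  induction s using Multiset.induction_on with
  | empty => simp
  | cons a s ih =>
    rw [Multiset.map_cons, Multiset.sum_cons, ih (fun ψ hψ => h1 ψ (Multiset.mem_cons_of_mem hψ)),
      ip_irr (h1 a (Multiset.mem_cons_self _ _)) hφ, Multiset.count_cons]
    by_cases ha : a = φ
    · subst ha; simp [add_comm]
    · simp [ha, Ne.symm ha]

lemma Dec.mem_iff {H : Subgroup G} {χ : G → ℂ} {s : Multiset (G → ℂ)} (h : Dec H χ s)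
    {φ : G → ℂ} (hφ : IsIrr H φ) : φ ∈ s ↔ ip H χ φ ≠ 0 := by
  rw [h.count hφ, ← Multiset.count_ne_zero]
  simp

omit [Fintype G] in
lemma Dec.deg_sum {H : Subgroup G} {χ : G → ℂ} {s : Multiset (G → ℂ)} (h : Dec H χ s) :
    χ 1 = ((s.map deg).sum : ℕ) := by
  rw [h.2 1 H.one_mem]
  have h1 := h.1
  clear h
  induction s using Multiset.induction_on with
  | empty => simp
  | cons a s ih =>
    simp only [Multiset.map_cons, Multiset.sum_cons, Nat.cast_add]
    rw [ih (fun ψ hψ => h1 ψ (Multiset.mem_cons_of_mem hψ)),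
      (h1 a (Multiset.mem_cons_self _ _)).isChar.deg_eq]

lemma ip_trans {M M' : Subgroup G} (hM : M' ≤ M) {θ β γ : G → ℂ} (hθ : IsChar M θ)
    (hβ : IsIrr M β) (hγ : IsChar M' γ) (h1 : ip M θ β ≠ 0) (h2 : ip M' β γ ≠ 0) :
    ip M' θ γ ≠ 0 := by
  obtain ⟨s, hs⟩ := hθ.exists_dec
  have hm := (hs.mem_iff hβ).2 h1
  rw [ip_sum hM hs.2]
  obtain ⟨t, rfl⟩ := Multiset.exists_cons_of_mem hm
  have h3 : ∀ t : Multiset (G → ℂ), (∀ ψ ∈ t, IsIrr M ψ) →
      ∃ n : ℕ, (t.map (fun ψ => ip M' ψ γ)).sum = n := by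
    intro t
    induction t using Multiset.induction_on with
    | empty => intro _; exact ⟨0, by simp⟩
    | cons a t ih =>
      intro ht
      obtain ⟨n, hn⟩ := ih (fun ψ hψ => ht ψ (Multiset.mem_cons_of_mem hψ))
      obtain ⟨m, hm⟩ := ip_nat ((ht a (Multiset.mem_cons_self _ _)).isChar.mono hM) hγ
      exact ⟨m + n, by simp [hn, hm]⟩
  obtain ⟨n, hn⟩ := h3 t (fun ψ hψ => hs.1 ψ (Multiset.mem_cons_of_mem hψ))
  obtain ⟨m, hm⟩ := ip_nat (hβ.isChar.mono hM) hγ
  rw [Multiset.map_cons, Multiset.sum_cons, hn, hm]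
  rw [hm] at h2
  have : m ≠ 0 := by exact_mod_cast h2
  have h4 : m + n ≠ 0 := by omega
  exact_mod_cast h4

lemma scal_rep {H V : Type} [Group H] [Finite H] [AddCommGroup V] [Module ℂ V]
    [FiniteDimensional ℂ V] (ρ : Representation ℂ H V) (x : H) (z : ℂ)
    (h : ∀ y, ρ.character (x * y) = z * ρ.character y) : ρ x = z • (1 : V →ₗ[ℂ] V) := by
  rcases subsingleton_or_nontrivial V with hV | hV
  · exact Subsingleton.elim _ _
  have hd : (finrank ℂ V : ℂ) ≠ 0 := by exact_mod_cast finrank_pos.ne'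
  have hpow : ∀ j : ℕ, ρ.character (x ^ j) = z ^ j * finrank ℂ V := by
    intro j
    induction j with
    | zero => simp
    | succ j ih => rw [pow_succ', h, ih]; ring
  set n := orderOf x with hn
  have hn0 : 0 < n := orderOf_pos x
  have hzn : z ^ n = 1 := by
    have := hpow n
    rw [hn, pow_orderOf_eq_one, Representation.char_one] at this
    exact mul_right_cancel₀ hd (by rw [one_mul]; exact this.symm)
  have hz0 : z ≠ 0 := by
    rintro rfl
    rw [zero_pow hn0.ne'] at hzn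
    exact zero_ne_one hzn
  set A : V →ₗ[ℂ] V := z⁻¹ • ρ x with hA
  have hAn : A ^ n = 1 := by
    rw [hA, smul_pow, ← map_pow, hn, pow_orderOf_eq_one, inv_pow, ← hn, hzn]; simp
  set T : V →ₗ[ℂ] V := ∑ j ∈ Finset.range n, A ^ j with hT
  have hAT : A * T = T := by
    have := mul_geom_sum A n
    rw [hAn, sub_self, sub_mul, one_mul, sub_eq_zero] at this
    exact this
  have hAjT : ∀ j : ℕ, A ^ j * T = T := by
    intro j
    induction j with
    | zero => simp
    | succ j ih => rw [pow_succ, mul_assoc, hAT, ih]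
  have hn' : (n : ℂ) ≠ 0 := by exact_mod_cast hn0.ne'
  set P : V →ₗ[ℂ] V := (n : ℂ)⁻¹ • T with hP
  have hPP : IsIdempotentElem P := by
    have : T * T = (n : ℂ) • T := by
      conv_lhs => rw [hT, Finset.sum_mul]
      simp only [← hT, hAjT]
      simp [Nat.cast_smul_eq_nsmul]
    unfold IsIdempotentElem
    rw [hP, smul_mul_smul_comm, this, smul_smul]
    congr 1
    field_simp
  have htr : LinearMap.trace ℂ V (1 - P) = 0 := by
    rw [map_sub, hP, map_smul, hT, map_sum, LinearMap.trace_one]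
    have : ∀ j ∈ Finset.range n, LinearMap.trace ℂ V (A ^ j) = finrank ℂ V := by
      intro j _
      rw [hA, smul_pow, map_smul, ← map_pow]
      have := hpow j
      unfold Representation.character at this
      rw [this, smul_eq_mul, ← mul_assoc, ← mul_pow, inv_mul_cancel₀ hz0]; simp
    rw [Finset.sum_congr rfl this]
    simp only [Finset.sum_const, Finset.card_range, nsmul_eq_mul, smul_eq_mul]
    field_simp
    ring
  have hP1 : P = 1 := by
    have := (LinearMap.IsIdempotentElem.trace_eq_zero_iff hPP.one_sub).1 htr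
    exact (sub_eq_zero.1 this).symm
  have hA1 : A = 1 := by
    have : A * P = P := by rw [hP, mul_smul_comm, hAT]
    rwa [hP1, mul_one] at this
  rw [← hA1, hA, smul_smul, mul_inv_cancel₀ hz0, one_smul]

lemma scal_iff {H : Subgroup G} {χ : G → ℂ} {V : Type} [AddCommGroup V] [Module ℂ V]
    [FiniteDimensional ℂ V] {ρ : Representation ℂ H V} (h : ∀ x : H, χ x = ρ.character x)
    (x : H) (z : ℂ) : Scal H χ x z ↔ ρ x = z • (1 : V →ₗ[ℂ] V) := by
  constructor
  · intro hs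
    apply scal_rep
    intro y
    rw [← h, ← h]
    exact hs y y.2
  · intro hs y hy
    have h1 := h (x * ⟨y, hy⟩)
    have h2 := h ⟨y, hy⟩
    simp only [Subgroup.coe_mul] at h1 h2
    rw [h1, h2]
    unfold Representation.character
    rw [map_mul, hs]
    simp

lemma cons_scal {H M : Subgroup G} (hM : M ≤ H) {χ ψ : G → ℂ} (hχ : IsChar H χ) (hψ : IsIrr M ψ)
    (h : ip M χ ψ ≠ 0) {x : G} (hx : x ∈ M) {z : ℂ} (hs : Scal H χ x z) : Scal M ψ x z := by
  obtain ⟨V, _, _, _, ρ, hρ⟩ := hχ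
  have h1 := (scal_iff hρ ⟨x, hM hx⟩ z).1 hs
  obtain ⟨s, hs1, hs2⟩ := decomp M _ V (ρ.comp (inclusion hM)) rfl
  have hd : Dec M χ s := ⟨fun ψ hψ => (hs1 ψ hψ).1,
    fun y hy => (hρ ⟨y, hM hy⟩).trans (hs2 ⟨y, hy⟩)⟩
  have hm := (hd.mem_iff hψ).2 h
  intro y hy
  have := (hs1 ψ hm).2 (fun w => if w = ⟨x, hx⟩ then 1 else 0) z (by
    simp only [ite_smul, one_smul, zero_smul, Finset.sum_ite_eq', Finset.mem_univ, if_true]
    exact h1) ⟨y, hy⟩
  simpa using this

lemma schur {H V : Type} [Group H] [AddCommGroup V] [Module ℂ V]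
    [FiniteDimensional ℂ V] (ρ : Representation ℂ H V) (hρ : ρ.IsIrreducible) (T : V →ₗ[ℂ] V)
    (h : ∀ x, T * ρ x = ρ x * T) : ∃ c : ℂ, T = c • (1 : V →ₗ[ℂ] V) := by
  obtain ⟨c, hc⟩ := (Representation.IsIrreducible.algebraMap_intertwiningMap_bijective_of_isAlgClosed
    (ρ := ρ)).2 ⟨T, h⟩
  refine ⟨c, ?_⟩
  have := congrArg Representation.IntertwiningMap.toLinearMap hc
  exact this.symm

end Pool.Agent.P.MP_d0f95c_al
end

-- part Pool.Agent.P.MP_d0f95c_al.Char2
section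

set_option autoImplicit false

open Subgroup Module

namespace Pool.Agent.P.MP_d0f95c_al

open scoped Classical

variable {G : Type} [Group G] [Fintype G]

/-- conjugation action on functions -/
@[reducible] def cjAction (G : Type) [Group G] : MulAction G (G → ℂ) where
  smul g χ := fun x => χ (g⁻¹ * x * g)
  one_smul χ := by funext x; change χ (1⁻¹ * x * 1) = χ x; simp
  mul_smul a b χ := by
    funext x
    change χ ((a * b)⁻¹ * x * (a * b)) = χ (b⁻¹ * (a⁻¹ * x * a) * b)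
    simp [mul_assoc]

attribute [local instance] cjAction

omit [Fintype G] in
lemma cj_apply (g : G) (χ : G → ℂ) (x : G) : (g • χ) x = χ (g⁻¹ * x * g) := rfl

omit [Fintype G] in
lemma deg_cj (g : G) (χ : G → ℂ) : deg (g • χ) = deg χ := by simp [deg, cj_apply]

/-- `u` normalises `H` -/
def Nz (H : Subgroup G) (u : G) : Prop := ∀ x, u⁻¹ * x * u ∈ H ↔ x ∈ H

omit [Fintype G] in
lemma Nz.inv {H : Subgroup G} {u : G} (h : Nz H u) : Nz H u⁻¹ := by
  intro x
  rw [← h]; simp [mul_assoc]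

omit [Fintype G] in
lemma nz_of_normal (H : Subgroup G) [hH : H.Normal] (u : G) : Nz H u := by
  intro x
  constructor
  · intro h
    have := hH.conj_mem _ h u
    simpa [mul_assoc] using this
  · intro h
    have := hH.conj_mem _ h u⁻¹
    simpa using this

omit [Fintype G] in
lemma nz_of_mem {H : Subgroup G} {u : G} (hu : u ∈ H) : Nz H u := by
  intro x
  constructor
  · intro h
    have := H.mul_mem (H.mul_mem hu h) (H.inv_mem hu)
    simpa [mul_assoc] using this
  · intro h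
    exact H.mul_mem (H.mul_mem (H.inv_mem hu) h) hu

def nzEquiv {H : Subgroup G} {u : G} (h : Nz H u) : H ≃* H where
  toFun x := ⟨u⁻¹ * x * u, (h x).2 x.2⟩
  invFun x := ⟨u * x * u⁻¹, by simpa using (h.inv x).2 x.2⟩
  left_inv x := by apply Subtype.ext; simp [mul_assoc]
  right_inv x := by apply Subtype.ext; simp [mul_assoc]
  map_mul' x y := by apply Subtype.ext; simp [mul_assoc]

omit [Fintype G] in
lemma irr_comp {H K V : Type} [Group H] [Group K] [AddCommGroup V] [Module ℂ V]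
    (ρ : Representation ℂ H V) (hρ : ρ.IsIrreducible) (e : K →* H) (he : Function.Surjective e) :
    Representation.IsIrreducible (ρ.comp e : Representation ℂ K V) := by
  have hnt : Nontrivial (Subrepresentation (ρ.comp e : Representation ℂ K V)) := ⟨⊥, ⊤, fun h => by
    have h1 : (⊥ : Submodule ℂ V) = ⊤ := congrArg Subrepresentation.toSubmodule h
    have : (⊥ : Subrepresentation ρ) = ⊤ := Subrepresentation.toSubmodule_injective h1
    exact bot_ne_top this⟩
  refine ⟨fun W => ?_⟩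
  let W' : Subrepresentation ρ := ⟨W.toSubmodule, fun g v hv => by
    obtain ⟨k, rfl⟩ := he g
    exact W.apply_mem_toSubmodule k hv⟩
  rcases eq_bot_or_eq_top W' with h | h
  · left
    have h1 : W'.toSubmodule = ⊥ := congrArg Subrepresentation.toSubmodule h
    exact Subrepresentation.toSubmodule_injective h1
  · right
    have h1 : W'.toSubmodule = ⊤ := congrArg Subrepresentation.toSubmodule h
    exact Subrepresentation.toSubmodule_injective h1

omit [Fintype G] in
lemma IsIrr.cj {H : Subgroup G} {χ : G → ℂ} (h : IsIrr H χ) {u : G} (hu : Nz H u) :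
    IsIrr H (u • χ) := by
  obtain ⟨⟨V, _, _, _, ρ, hρ, h⟩, h'⟩ := h
  refine ⟨⟨V, _, _, inferInstance, ρ.comp (nzEquiv hu).toMonoidHom,
    irr_comp ρ hρ _ (nzEquiv hu).surjective, fun x => h (nzEquiv hu x)⟩, fun x hx => ?_⟩
  exact h' _ (fun h2 => hx ((hu x).1 h2))

omit [Fintype G] in
lemma IsIrr.cj_mem {H : Subgroup G} {χ : G → ℂ} (h : IsIrr H χ) {u : G} (hu : u ∈ H) :
    u • χ = χ := by
  funext x
  rw [cj_apply]
  by_cases hx : x ∈ H
  · have := h.isChar.conj hx (H.inv_mem hu)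
    simpa using this
  · rw [h.2 x hx, h.2 _ (fun h2 => hx ((nz_of_mem hu x).1 h2))]

lemma ip_cj {H : Subgroup G} (χ ψ : G → ℂ) {u : G} (hu : Nz H u) :
    ip H (u • χ) (u • ψ) = ip H χ ψ := by
  unfold ip
  congr 1
  apply Fintype.sum_equiv (nzEquiv hu).toEquiv
  intro x
  simp [cj_apply, nzEquiv, mul_assoc]

lemma ip_congr {H : Subgroup G} {χ χ' : G → ℂ} (ψ : G → ℂ) (h : ∀ x ∈ H, χ x = χ' x) :
    ip H χ ψ = ip H χ' ψ := by
  unfold ip
  congr 1
  apply Finset.sum_congr rfl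
  intro x _
  rw [h x x.2]

lemma Dec.count_cj {H : Subgroup G} {χ : G → ℂ} {s : Multiset (G → ℂ)} (h : Dec H χ s)
    {u : G} (hu : Nz H u) (hχ : ∀ x ∈ H, (u • χ) x = χ x) (φ : G → ℂ) :
    s.count (u • φ) = s.count φ := by
  by_cases hφ : IsIrr H φ
  · have h1 := h.count hφ
    have h2 := h.count (hφ.cj hu)
    rw [← ip_congr _ hχ, ip_cj _ _ hu, h1] at h2
    exact_mod_cast h2.symm
  · have h2 : ¬ IsIrr H (u • φ) := fun h2 => hφ (by simpa using h2.cj hu.inv)
    rw [Multiset.count_eq_zero.2 (fun hm => hφ (h.1 _ hm)),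
      Multiset.count_eq_zero.2 (fun hm => h2 (h.1 _ hm))]

lemma orbit_dvd {U X : Type} [Group U] [Finite U] [MulAction U X] [DecidableEq X] (w : X → ℕ)
    (hw : ∀ (u : U) x, w (u • x) = w x) (d : ℕ) (n : ℕ) : ∀ s : Multiset X, s.card = n →
    (∀ (u : U) x, s.count (u • x) = s.count x) →
    (∀ x ∈ s, d ∣ (MulAction.stabilizer U x).index * w x) → d ∣ (s.map w).sum := by
  induction n using Nat.strong_induction_on with
  | _ n ih =>
    intro s hn hs hd
    rcases s.empty_or_exists_mem with h | ⟨x, hx⟩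
    · simp [h]
    have hfin : (MulAction.orbit U x).Finite := Set.finite_range _
    set O : Multiset X := hfin.toFinset.val with hO
    have hcnt : ∀ y, O.count y = if y ∈ MulAction.orbit U x then 1 else 0 := by
      intro y
      rw [hO, Multiset.count_eq_of_nodup hfin.toFinset.nodup]
      simp
    have hle : O ≤ s := by
      rw [Multiset.le_iff_count]
      intro y
      rw [hcnt]
      split_ifs with hy
      · obtain ⟨u, rfl⟩ := hy
        simp only
        rw [hs]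
        exact Multiset.one_le_count_iff_mem.2 hx
      · exact Nat.zero_le _
    obtain ⟨t, rfl⟩ := Multiset.le_iff_exists_add.1 hle
    have hOw : (O.map w).sum = (MulAction.stabilizer U x).index * w x := by
      rw [MulAction.index_stabilizer, Set.ncard_eq_toFinset_card _ hfin]
      have : O.map w = O.map (fun _ => w x) := by
        apply Multiset.map_congr rfl
        intro y hy
        have : y ∈ MulAction.orbit U x := by simpa [hO] using hy
        obtain ⟨u, rfl⟩ := this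
        exact hw u x
      rw [this]
      simp [hO]
    have hpos : 0 < O.card := by
      rw [Multiset.card_pos_iff_exists_mem]
      exact ⟨x, by simp [hO]⟩
    rw [Multiset.map_add, Multiset.sum_add, hOw]
    refine dvd_add (hd x hx) (ih t.card ?_ t rfl ?_ (fun y hy => hd y (Multiset.mem_add.2 (Or.inr hy))))
    · rw [← hn, Multiset.card_add]; omega
    · intro u y
      have h1 := hs u y
      rw [Multiset.count_add, Multiset.count_add, hcnt, hcnt] at h1
      have h2 : u • y ∈ MulAction.orbit U x ↔ y ∈ MulAction.orbit U x := by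
        constructor
        · rintro ⟨v, hv⟩
          exact ⟨u⁻¹ * v, by simp only at hv ⊢; rw [mul_smul, hv]; simp⟩
        · rintro ⟨v, rfl⟩
          exact ⟨u * v, by simp [mul_smul]⟩
      simp only [h2] at h1
      omega

omit [Fintype G] in
lemma stab_index (U : Subgroup G) (φ : G → ℂ) :
    (MulAction.stabilizer U φ).index = (MulAction.stabilizer G φ).relIndex U := rfl

/-- divisibility along orbits of constituents -/
lemma cons_dvd {M U : Subgroup G} {χ : G → ℂ} {s : Multiset (G → ℂ)} (hs : Dec M χ s)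
    (hU : ∀ u ∈ U, Nz M u) (hχ : ∀ u ∈ U, ∀ x ∈ M, (u • χ) x = χ x) (d : ℕ)
    (Q : (G → ℂ) → Prop) (hQ : ∀ u ∈ U, ∀ φ, Q (u • φ) ↔ Q φ)
    (hd : ∀ φ ∈ s, Q φ → d ∣ (MulAction.stabilizer G φ).relIndex U * deg φ) :
    d ∣ ((s.filter Q).map deg).sum := by
  apply orbit_dvd (U := U) (X := G → ℂ) deg (fun u x => deg_cj (u : G) x) d _ _ rfl
  · intro u φ
    change Multiset.count ((u : G) • φ) _ = _
    rw [Multiset.count_filter, Multiset.count_filter, hQ u u.2,
      hs.count_cj (hU u u.2) (hχ u u.2)]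
  · intro φ hφ
    rw [Multiset.mem_filter] at hφ
    exact hd φ hφ.1 hφ.2

lemma schur_elt {H : Subgroup G} {χ : G → ℂ} (h : IsIrr H χ) {a : G} (ha : a ∈ H)
    (hc : ∀ x ∈ H, Scal H χ (x⁻¹ * a⁻¹ * x * a) 1) : ∃ z, Scal H χ a z := by
  obtain ⟨⟨V, _, _, _, ρ, hρ, h⟩, _⟩ := h
  obtain ⟨c, hc⟩ := schur ρ hρ (ρ ⟨a, ha⟩) (fun x => by
    have h1 := (scal_iff h (x⁻¹ * (⟨a, ha⟩ : H)⁻¹ * x * ⟨a, ha⟩) 1).1 (hc x x.2)
    have h2 : x * ⟨a, ha⟩ = ⟨a, ha⟩ * x * (x⁻¹ * (⟨a, ha⟩ : H)⁻¹ * x * ⟨a, ha⟩) := by group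
    rw [← map_mul, ← map_mul, h2, map_mul ρ (⟨a, ha⟩ * x), h1]
    simp)
  exact ⟨c, (scal_iff h ⟨a, ha⟩ c).2 hc⟩

/-- sums of class functions act as scalars -/
lemma schur_fun {H M V : Type} [Group H] [Group M] [Fintype M] [AddCommGroup V] [Module ℂ V]
    [FiniteDimensional ℂ V] (ρ : Representation ℂ H V) (hρ : ρ.IsIrreducible) (i : M →* H)
    (F : M → ℂ) (hF : ∀ y : H, ∃ e : M ≃ M, ∀ x, i (e x) = y⁻¹ * i x * y ∧ F (e x) = F x) :
    ∃ c : ℂ, ∑ x, F x • ρ (i x) = c • (1 : V →ₗ[ℂ] V) := by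
  apply schur ρ hρ
  intro y
  obtain ⟨e, he⟩ := hF y
  rw [Finset.sum_mul, Finset.mul_sum, ← Equiv.sum_comp e (fun x => ρ y * F x • ρ (i x))]
  apply Finset.sum_congr rfl
  intro x _
  rw [(he x).1, (he x).2, smul_mul_assoc, mul_smul_comm, ← map_mul, ← map_mul]
  simp [mul_assoc]

lemma fix_ker {N D : Subgroup G} (hD : D ≤ N) (hn : ∀ y ∈ N, Nz D y) {θ : G → ℂ} (h : IsIrr N θ)
    (h0 : ip D θ (fun _ => 1) ≠ 0) {d : G} (hd : d ∈ D) : Scal N θ d 1 := by
  obtain ⟨⟨V, _, _, _, ρ, hρ, h⟩, _⟩ := h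
  obtain ⟨c, hc⟩ := schur_fun ρ hρ (inclusion hD) (fun _ => 1) (fun y =>
    ⟨(nzEquiv (hn y y.2)).toEquiv, fun x => ⟨rfl, rfl⟩⟩)
  have hc0 : c ≠ 0 := by
    rintro rfl
    apply h0
    have := congrArg (LinearMap.trace ℂ V) hc
    simp only [one_smul, map_sum, zero_smul, map_zero] at this
    unfold ip
    have h2 : ∑ x : D, θ x * 1 = 0 := by
      rw [← this]
      apply Finset.sum_congr rfl
      intro x _
      rw [mul_one]
      exact h (inclusion hD x)
    rw [h2, mul_zero]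
  apply (scal_iff h ⟨d, hD hd⟩ 1).2
  have h3 : ρ ⟨d, hD hd⟩ * ∑ x : D, (1 : ℂ) • ρ (inclusion hD x)
      = ∑ x : D, (1 : ℂ) • ρ (inclusion hD x) := by
    rw [Finset.mul_sum, ← Equiv.sum_comp (Equiv.mulLeft (⟨d, hd⟩ : D))
      (fun x => (1 : ℂ) • ρ (inclusion hD x))]
    apply Finset.sum_congr rfl
    intro x _
    simp only [one_smul, Equiv.coe_mulLeft, map_mul]
    rfl
  rw [hc, mul_smul_comm, mul_one] at h3
  rw [one_smul]
  exact smul_right_injective _ hc0 h3

lemma clifford {N A : Subgroup G} (hA : A ≤ N) (hn : ∀ y ∈ N, Nz A y) {θ μ ν : G → ℂ}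
    (h : IsIrr N θ) (hμ : IsIrr A μ) (hν : IsIrr A ν) (h1 : ip A θ μ ≠ 0) (h2 : ip A θ ν ≠ 0) :
    ∃ y ∈ N, ν = y • μ := by
  obtain ⟨⟨V, _, _, _, ρ, hρ, h⟩, _⟩ := h
  obtain ⟨c, hc⟩ := schur_fun ρ hρ (inclusion hA)
    (fun x => ∑ y : N, ((y : G) • μ) (x : G)⁻¹) (fun y =>
    ⟨(nzEquiv (hn y y.2)).toEquiv, fun x => ⟨rfl, by
      rw [← Equiv.sum_comp (Equiv.mulLeft y) (fun y : N => ((y : G) • μ) (x : G)⁻¹)]
      apply Finset.sum_congr rfl
      intro z _
      simp [cj_apply, nzEquiv, mul_assoc]⟩⟩)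
  obtain ⟨s, hs1, hs2⟩ := decomp A _ V (ρ.comp (inclusion hA)) rfl
  have hd : Dec A θ s := ⟨fun ψ hψ => (hs1 ψ hψ).1,
    fun y hy => (h ⟨y, hA hy⟩).trans (hs2 ⟨y, hy⟩)⟩
  have key : ∀ ψ, IsIrr A ψ → ip A θ ψ ≠ 0 →
      (Nat.card A : ℂ) * ((Finset.univ.filter (fun y : N => ψ = (y : G) • μ)).card : ℂ)
        = c * ψ 1 := by
    intro ψ hψ h0
    have h3 := (hs1 ψ ((hd.mem_iff hψ).2 h0)).2 _ c hc 1
    simp only [OneMemClass.coe_one, mul_one] at h3
    rw [← h3]
    simp only [Finset.sum_mul]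
    rw [Finset.sum_comm, Finset.card_filter]
    push_cast
    rw [Finset.mul_sum]
    apply Finset.sum_congr rfl
    intro y _
    rw [← ip_irr hψ (hμ.cj (hn y y.2))]
    unfold ip
    rw [← mul_assoc, mul_inv_cancel₀ (card_ne A), one_mul]
    apply Finset.sum_congr rfl
    intro x _
    ring
  have hc0 : c ≠ 0 := by
    rintro rfl
    have := key μ hμ h1
    rw [zero_mul, mul_eq_zero] at this
    rcases this with h4 | h4
    · exact card_ne A h4
    · have h5 : (Finset.univ.filter (fun y : N => μ = (y : G) • μ)).card = 0 := by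
        exact_mod_cast h4
      rw [Finset.card_eq_zero, Finset.filter_eq_empty_iff] at h5
      exact h5 (Finset.mem_univ 1) (by simp)
  have h6 := key ν hν h2
  have h7 : (Finset.univ.filter (fun y : N => ν = (y : G) • μ)).card ≠ 0 := by
    intro h8
    rw [h8] at h6
    simp only [Nat.cast_zero, mul_zero] at h6
    exact mul_ne_zero hc0 hν.one_ne h6.symm
  obtain ⟨y, hy⟩ := Finset.card_ne_zero.1 h7
  exact ⟨y, y.2, (Finset.mem_filter.1 hy).2⟩

omit [Fintype G] in
lemma linear_scal {H : Subgroup G} {χ : G → ℂ} (h : IsChar H χ) (h1 : deg χ = 1) {x : G}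
    (hx : x ∈ H) : Scal H χ x (χ x) := by
  have h0 := h.deg_eq
  obtain ⟨V, _, _, _, ρ, h⟩ := h
  have h2 := h 1
  simp only [OneMemClass.coe_one, Representation.char_one] at h2
  rw [h2, h1] at h0
  have h3 : finrank ℂ V = 1 := by exact_mod_cast h0.symm
  have key : ∀ T : V →ₗ[ℂ] V, T = LinearMap.trace ℂ V T • (1 : V →ₗ[ℂ] V) := by
    intro T
    have h4 : finrank ℂ (V →ₗ[ℂ] V) = 1 := by rw [finrank_linearMap, h3]
    have hnt : Nontrivial V := finrank_pos_iff.1 (by rw [h3]; exact one_pos)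
    obtain ⟨c, hc⟩ := (finrank_eq_one_iff_of_nonzero' (1 : V →ₗ[ℂ] V) one_ne_zero).1 h4 T
    rw [← hc]
    simp [h3]
  intro y hy
  have h5 := h (⟨x, hx⟩ * ⟨y, hy⟩)
  have h6 := h ⟨y, hy⟩
  have h7 := h ⟨x, hx⟩
  simp only [Subgroup.coe_mul] at h5 h6 h7
  rw [h5, h6, h7]
  unfold Representation.character
  rw [map_mul]
  conv_lhs => rw [key (ρ ⟨x, hx⟩)]
  simp

lemma char_integral {H V : Type} [Group H] [Finite H] [AddCommGroup V] [Module ℂ V]
    [FiniteDimensional ℂ V] (ρ : Representation ℂ H V) (x : H) : IsIntegral ℤ (ρ.character x) := by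
  unfold Representation.character
  let b := Module.finBasis ℂ V
  rw [LinearMap.trace_eq_matrix_trace ℂ b, Matrix.trace_eq_sum_roots_charpoly]
  apply IsIntegral.multiset_sum
  intro r hr
  have h1 : Module.End.HasEigenvalue (ρ x) r := by
    rw [Module.End.hasEigenvalue_iff_isRoot_charpoly, ← LinearMap.charpoly_toMatrix (ρ x) b]
    exact Polynomial.isRoot_of_mem_roots hr
  obtain ⟨v, hv⟩ := h1.exists_hasEigenvector
  have h2 := hv.pow_apply (orderOf x)
  rw [← map_pow, pow_orderOf_eq_one, map_one] at h2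
  have h3 : r ^ orderOf x = 1 := by
    have h4 : (1 : ℂ) • v = r ^ orderOf x • v := by simpa using h2
    exact (smul_left_injective ℂ hv.2 h4).symm
  apply IsIntegral.of_pow (orderOf_pos x)
  rw [h3]
  exact isIntegral_one

lemma deg_dvd {H : Subgroup G} {χ : G → ℂ} (hχ : IsIrr H χ) : deg χ ∣ Nat.card H := by
  have hip := ip_irr hχ hχ
  have hdeg := hχ.isChar.deg_eq
  have hne := hχ.one_ne
  have hcj := fun y (hy : y ∈ H) => hχ.cj_mem hy
  obtain ⟨⟨V, _, _, _, ρ, hρ, h⟩, _⟩ := hχ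
  obtain ⟨c, hc⟩ := schur_fun ρ hρ (MonoidHom.id H) (fun x => χ (x : G)⁻¹) (fun y =>
    ⟨(nzEquiv (nz_of_mem y.2)).toEquiv, fun x => ⟨rfl, by
      have := congrFun (hcj y y.2) (x : G)⁻¹
      rw [← this]
      simp [cj_apply, nzEquiv, mul_assoc]⟩⟩)
  have h1 : c * χ 1 = Nat.card H := by
    have h2 := congrArg (LinearMap.trace ℂ V) hc
    simp only [map_sum, map_smul, LinearMap.trace_one, smul_eq_mul, MonoidHom.id_apply] at h2
    have h3 := h 1
    simp only [OneMemClass.coe_one, Representation.char_one] at h3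
    rw [h3, ← h2]
    rw [if_pos rfl] at hip
    unfold ip at hip
    rw [inv_mul_eq_one₀ (card_ne H)] at hip
    rw [hip]
    apply Finset.sum_congr rfl
    intro x _
    rw [mul_comm, h x]
    rfl
  have hnt : Nontrivial V := by
    have h3 := h 1
    simp only [OneMemClass.coe_one, Representation.char_one] at h3
    rw [h3] at hne
    exact finrank_pos_iff.1 (Nat.pos_of_ne_zero (by exact_mod_cast hne))
  let R := integralClosure ℤ ℂ
  have h4 : IsIntegral R c := by
    obtain ⟨v, hv⟩ := exists_ne (0 : V)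
    let W : Submodule R V := Submodule.span R (Set.range (fun y : H => ρ y v))
    have hW : W ≠ ⊥ := by
      intro h0
      have : v ∈ W := Submodule.subset_span ⟨1, by simp⟩
      rw [h0] at this
      exact hv this
    apply isIntegral_of_smul_mem_submodule W hW (Submodule.fg_span (Set.finite_range _))
    intro w hw
    have hρW : ∀ x : H, ρ x w ∈ W := by
      intro x
      induction hw using Submodule.span_induction with
      | mem y hy =>
        obtain ⟨y, rfl⟩ := hy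
        exact Submodule.subset_span ⟨x * y, by simp⟩
      | zero => simp
      | add a b _ _ ha hb => rw [map_add]; exact W.add_mem ha hb
      | smul r a _ ha =>
        have : ρ x (r • a) = r • ρ x a := (ρ x).map_smul (r : ℂ) a
        rw [this]; exact W.smul_mem r ha
    have h5 := LinearMap.congr_fun hc w
    simp only [MonoidHom.id_apply, LinearMap.sum_apply, LinearMap.smul_apply,
      Module.End.one_apply] at h5
    rw [← h5]
    apply W.sum_mem
    intro x _
    have h6 : IsIntegral ℤ (χ (x : G)⁻¹) := by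
      have := h x⁻¹
      simp only [InvMemClass.coe_inv] at this
      rw [this]; exact char_integral ρ _
    exact W.smul_mem (⟨_, h6⟩ : R) (hρW x)
  have h5 : IsIntegral ℤ c := isIntegral_trans c h4
  have hd0 : (deg χ : ℂ) ≠ 0 := hdeg ▸ hne
  have h6 : c = algebraMap ℚ ℂ ((Nat.card H : ℚ) / deg χ) := by
    rw [← hdeg] at h1
    simp only [eq_ratCast]
    push_cast
    rw [← h1]; field_simp
  rw [h6, isIntegral_algebraMap_iff (algebraMap ℚ ℂ).injective] at h5
  obtain ⟨z, hz⟩ := IsIntegrallyClosed.isIntegral_iff.1 h5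
  have hd1 : (deg χ : ℚ) ≠ 0 := by exact_mod_cast hd0
  have h7 : (z : ℚ) * deg χ = Nat.card H := by
    simp only [eq_intCast] at hz
    rw [hz]; field_simp
  have h8 : z * deg χ = Nat.card H := by exact_mod_cast h7
  exact Int.natCast_dvd_natCast.1 ⟨z, by rw [← h8]; ring⟩

/-- permutation character on the cosets of `U` -/
noncomputable def perm (U : Subgroup G) : G → ℂ :=
  fun x => ((Finset.univ.filter (fun q : G ⧸ U => x • q = q)).card : ℂ)

lemma isChar_perm (U H : Subgroup G) : IsChar H (perm U) := by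
  apply IsChar.mono _ (le_top : H ≤ ⊤)
  let ρ : Representation ℂ (⊤ : Subgroup G) ((G ⧸ U) → ℂ) :=
    { toFun := fun x => LinearMap.funLeft ℂ ℂ (fun q => (x : G)⁻¹ • q)
      map_one' := by ext; simp
      map_mul' := fun x y => by ext; simp [mul_smul] }
  refine ⟨_, _, _, inferInstance, ρ, fun x => ?_⟩
  unfold Representation.character perm
  rw [LinearMap.trace_eq_matrix_trace ℂ (Pi.basisFun ℂ (G ⧸ U)), Matrix.trace, Finset.card_filter]
  push_cast
  apply Finset.sum_congr rfl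
  intro q _
  simp [ρ, Pi.single_apply, inv_smul_eq_iff]
  simp only [eq_comm]

lemma perm_cj (U : Subgroup G) (g : G) : g • perm U = perm U := by
  funext x
  have := (isChar_perm U ⊤).conj (mem_top x) (mem_top g⁻¹)
  simpa [cj_apply] using this

lemma perm_one (U : Subgroup G) : perm U 1 = U.index := by
  simp [perm, index_eq_card]

end Pool.Agent.P.MP_d0f95c_al
end

-- part Pool.Agent.P.MP_d0f95c_al.Star
section

set_option autoImplicit false

open Subgroup Module

namespace Pool.Agent.P.MP_d0f95c_al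

open scoped Classical

variable {G : Type} [Group G] [Fintype G]

attribute [local instance] cjAction

omit [Fintype G] in
lemma Scal.mul {H : Subgroup G} {χ : G → ℂ} {x y : G} {a b : ℂ} (hx : Scal H χ x a)
    (hy : Scal H χ y b) (hy' : y ∈ H) : Scal H χ (x * y) (a * b) := by
  intro w hw
  rw [mul_assoc, hx _ (H.mul_mem hy' hw), hy w hw, mul_assoc]

omit [Fintype G] in
lemma Scal.inv {H : Subgroup G} {χ : G → ℂ} {x : G} {a : ℂ} (hx : Scal H χ x a) (ha : a ≠ 0)
    (hx' : x ∈ H) : Scal H χ x⁻¹ a⁻¹ := by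
  intro w hw
  have := hx _ (H.mul_mem (H.inv_mem hx') hw)
  rw [mul_inv_cancel_left] at this
  rw [this]; field_simp

omit [Fintype G] in
lemma Scal.cj {H : Subgroup G} {χ : G → ℂ} {x u : G} {a : ℂ} (hx : Scal H χ x a) (hu : Nz H u) :
    Scal H (u • χ) (u * x * u⁻¹) a := by
  intro w hw
  rw [cj_apply, cj_apply, ← hx _ ((hu w).2 hw)]
  congr 1
  group

omit [Fintype G] in
lemma Scal.conj {H : Subgroup G} {χ : G → ℂ} {x u : G} {a : ℂ} (hx : Scal H χ x a) (hu : Nz H u)
    (h : u • χ = χ) : Scal H χ (u⁻¹ * x * u) a := by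
  have h1 := hx.cj hu.inv
  have h2 : u⁻¹ • χ = χ := by rw [inv_smul_eq_iff, h]
  simpa [h2] using h1

omit [Fintype G] in
lemma Scal.ne_zero {H : Subgroup G} {χ : G → ℂ} {x : G} {a : ℂ} (hx : Scal H χ x a)
    (h : IsIrr H χ) (hx' : x ∈ H) : a ≠ 0 := by
  rintro rfl
  have := hx _ (H.inv_mem hx')
  rw [mul_inv_cancel, zero_mul] at this
  exact h.one_ne this

def kerS (H : Subgroup G) (χ : G → ℂ) : Subgroup G where
  carrier := {x | x ∈ H ∧ Scal H χ x 1}
  mul_mem' := fun ha hb => ⟨H.mul_mem ha.1 hb.1, by simpa using ha.2.mul hb.2 hb.1⟩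
  one_mem' := ⟨H.one_mem, fun y _ => by simp⟩
  inv_mem' := fun ha => ⟨H.inv_mem ha.1, by simpa using ha.2.inv one_ne_zero ha.1⟩

def cenS (H : Subgroup G) (χ : G → ℂ) : Subgroup G where
  carrier := {x | x ∈ H ∧ ∃ z, z ≠ 0 ∧ Scal H χ x z}
  mul_mem' := fun ⟨ha, a, ha0, ha1⟩ ⟨hb, b, hb0, hb1⟩ =>
    ⟨H.mul_mem ha hb, a * b, mul_ne_zero ha0 hb0, ha1.mul hb1 hb⟩
  one_mem' := ⟨H.one_mem, 1, one_ne_zero, fun y _ => by simp⟩
  inv_mem' := fun ⟨ha, a, ha0, ha1⟩ => ⟨H.inv_mem ha, a⁻¹, inv_ne_zero ha0, ha1.inv ha0 ha⟩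

omit [Fintype G] in
lemma comm_ker {H : Subgroup G} {χ : G → ℂ} {x y : G} (hx : x ∈ cenS H χ) (hy : y ∈ cenS H χ) :
    x * y * x⁻¹ * y⁻¹ ∈ kerS H χ := by
  obtain ⟨hx, a, ha0, ha⟩ := hx
  obtain ⟨hy, b, hb0, hb⟩ := hy
  refine ⟨H.mul_mem (H.mul_mem (H.mul_mem hx hy) (H.inv_mem hx)) (H.inv_mem hy), ?_⟩
  have := ((ha.mul hb hy).mul (ha.inv ha0 hx) (H.inv_mem hx)).mul (hb.inv hb0 hy) (H.inv_mem hy)
  have e : a * b * a⁻¹ * b⁻¹ = 1 := by field_simp
  rwa [e] at this

lemma ip_one_of_ker {H D : Subgroup G} {χ : G → ℂ} (h : D ≤ kerS H χ) :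
    ip D χ (fun _ => 1) = χ 1 := by
  unfold ip
  have : ∀ x : D, χ x * 1 = χ 1 := by
    intro x
    have := (h x.2).2 1 H.one_mem
    simpa using this
  simp only [this, Finset.sum_const, Finset.card_univ, nsmul_eq_mul]
  rw [← Nat.card_eq_fintype_card, ← mul_assoc, inv_mul_cancel₀ (card_ne D), one_mul]

lemma cons_dvd' {M U : Subgroup G} {χ : G → ℂ} {s : Multiset (G → ℂ)} (hs : Dec M χ s)
    (hχ' : IsChar M χ)
    (hU : ∀ u ∈ U, Nz M u) (hχ : ∀ u ∈ U, ∀ x ∈ M, (u • χ) x = χ x) (d c : ℕ)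
    (hd : ∀ φ ∈ s, d ∣ (MulAction.stabilizer G φ).relIndex U * (c * deg φ)) :
    d ∣ c * deg χ := by
  have h1 := orbit_dvd (U := U) (X := G → ℂ) (fun φ => c * deg φ)
    (fun u x => by rw [show deg (u • x) = deg x from deg_cj (u : G) x]) d _ s rfl
    (fun u φ => hs.count_cj (hU u u.2) (hχ u u.2) φ) hd
  rw [Multiset.sum_map_mul_left] at h1
  have h2 := hs.deg_sum
  rw [← hχ'.deg_eq] at h2
  have h3 : deg χ = (s.map deg).sum := by exact_mod_cast h2
  rw [h3]; exact h1

lemma sep {H O : Subgroup G} [hO : O.Normal] (hOH : O ≤ H) {x : G} (hx : x ∈ H)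
    (h : ∀ ψ, IsIrr H ψ → (∀ o ∈ O, Scal H ψ o 1) → Scal H ψ x 1) : x ∈ O := by
  obtain ⟨s, hs⟩ := (isChar_perm O H).exists_dec
  have h1 : ∀ o ∈ O, Scal H (perm O) o 1 := by
    intro o ho y _
    have : ∀ q : G ⧸ O, o • q = q := by
      intro q
      obtain ⟨g, rfl⟩ := QuotientGroup.mk_surjective q
      rw [MulAction.Quotient.smul_mk, QuotientGroup.eq]
      have := hO.conj_mem _ (O.inv_mem ho) g⁻¹
      simpa [mul_assoc] using this
    simp [perm, mul_smul, this]
  have h2 : perm O x = perm O 1 := by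
    rw [hs.2 x hx, hs.2 1 H.one_mem]
    congr 1
    apply Multiset.map_congr rfl
    intro ψ hψ
    have h3 := h ψ (hs.1 ψ hψ) (fun o ho => cons_scal le_rfl (isChar_perm O H) (hs.1 ψ hψ)
      ((hs.mem_iff (hs.1 ψ hψ)).1 hψ) (hOH ho) (h1 o ho)) 1 H.one_mem
    simpa using h3
  have h3 : (Finset.univ.filter (fun q : G ⧸ O => x • q = q)).card = Fintype.card (G ⧸ O) := by
    simp only [perm, one_smul, Finset.filter_true, Finset.card_univ] at h2
    exact_mod_cast h2
  rw [Finset.card_eq_iff_eq_univ, Finset.filter_eq_self] at h3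
  have h4 := h3 (QuotientGroup.mk 1) (Finset.mem_univ _)
  rw [MulAction.Quotient.smul_mk, QuotientGroup.eq] at h4
  simpa using h4

lemma ip_perm (U K : Subgroup G) [hK : K.Normal] :
    ip K (perm U) (fun _ => 1) * U.relIndex K = U.index := by
  have h1 : ∑ x : K, perm U x * 1 = U.index * Nat.card (U.subgroupOf K) := by
    simp only [perm, mul_one, Finset.card_filter]
    push_cast
    rw [Finset.sum_comm]
    have : ∀ q : G ⧸ U, (∑ x : K, if (x : G) • q = q then (1 : ℂ) else 0)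
        = Nat.card (U.subgroupOf K) := by
      intro q
      obtain ⟨g, rfl⟩ := QuotientGroup.mk_surjective q
      rw [Nat.card_eq_fintype_card, Fintype.card_subtype, Finset.card_filter]
      push_cast
      apply Fintype.sum_equiv (nzEquiv (nz_of_normal K g)).toEquiv
      intro x
      congr 1
      rw [MulAction.Quotient.smul_mk, QuotientGroup.eq, ← U.inv_mem_iff]
      simp [mem_subgroupOf, nzEquiv, mul_assoc]
    simp only [this, Finset.sum_const, Finset.card_univ, nsmul_eq_mul]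
    rw [index_eq_card, Nat.card_eq_fintype_card (α := G ⧸ U)]
  unfold ip
  rw [h1]
  have h2 : (Nat.card (U.subgroupOf K) : ℂ) * U.relIndex K = Nat.card K := by
    exact_mod_cast (U.subgroupOf K).card_mul_index
  have h3 := card_ne K
  rw [mul_assoc, mul_assoc, h2]
  field_simp

/-- the hypothesis -/
def Hyp (N : Subgroup G) (f : ℕ) : Prop :=
  ∀ θ, IsIrr N θ → (MulAction.stabilizer G θ).index * deg θ = 1 ∨
    (MulAction.stabilizer G θ).index * deg θ = f

omit [Fintype G] in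
lemma lin_inv_ker {N : Subgroup G} [hN : N.Normal] {θ : G → ℂ} (hθ : IsIrr N θ)
    (h : (MulAction.stabilizer G θ).index * deg θ = 1) : ⁅N, (⊤ : Subgroup G)⁆ ≤ kerS N θ := by
  have h1 : deg θ = 1 := Nat.eq_one_of_mul_eq_one_left h
  have h2 : MulAction.stabilizer G θ = ⊤ := index_eq_one.1 (Nat.eq_one_of_mul_eq_one_right h)
  rw [commutator_le]
  intro n hn g _
  have hs := linear_scal hθ.isChar h1 hn
  have hg : g⁻¹ • θ = θ := (show g⁻¹ ∈ MulAction.stabilizer G θ from h2 ▸ mem_top _)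
  have h0 := hs.ne_zero hθ hn
  have h3 := (hs.inv h0 hn).conj (nz_of_normal N g⁻¹) hg
  have hm : g⁻¹⁻¹ * n⁻¹ * g⁻¹ ∈ N := (nz_of_normal N g⁻¹ _).2 (N.inv_mem hn)
  have h4 := hs.mul h3 hm
  rw [mul_inv_cancel₀ h0] at h4
  have e : n * g * n⁻¹ * g⁻¹ = n * (g⁻¹⁻¹ * n⁻¹ * g⁻¹) := by group
  rw [commutatorElement_def, e]
  exact ⟨N.mul_mem hn hm, h4⟩

lemma star {N : Subgroup G} [hN : N.Normal] {f : ℕ} (h : Hyp N f) (U : Subgroup G) :
    ∃ n m : ℕ, n * U.relIndex ⁅N, (⊤ : Subgroup G)⁆ = U.index ∧ U.index = n + f * m := by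
  set K := ⁅N, (⊤ : Subgroup G)⁆ with hK
  have hKN : K ≤ N := commutator_le_left _ _
  obtain ⟨s, hs⟩ := (isChar_perm U N).exists_dec
  have hQ : ∀ (u : G) (φ : G → ℂ), K ≤ kerS N φ → K ≤ kerS N (u • φ) := by
    intro u φ h1 k hk
    have h2 := (h1 ((nz_of_normal K u k).2 hk)).2.cj (nz_of_normal N u)
    refine ⟨hKN hk, ?_⟩
    simpa [mul_assoc] using h2
  obtain ⟨m, hm⟩ := cons_dvd (U := ⊤) hs (fun u _ => nz_of_normal N u)
    (fun u _ x _ => by rw [perm_cj]) f (fun φ => ¬ K ≤ kerS N φ) (by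
      intro u _ φ
      rw [not_iff_not]
      exact ⟨fun h1 => by simpa using hQ u⁻¹ _ h1, hQ u φ⟩) (by
      intro φ hφ h1
      rw [relIndex_top_right]
      rcases h φ (hs.1 φ hφ) with h2 | h2
      · exact absurd (lin_inv_ker (hs.1 φ hφ) h2) h1
      · rw [h2])
  refine ⟨((s.filter (fun φ => K ≤ kerS N φ)).map deg).sum, m, ?_, ?_⟩
  · have h1 := ip_perm U K
    rw [ip_sum hKN hs.2] at h1
    have h2 : ∀ t : Multiset (G → ℂ), (∀ ψ ∈ t, IsIrr N ψ) →
        (t.map (fun ψ => ip K ψ (fun _ => 1))).sum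
          = (((t.filter (fun φ => K ≤ kerS N φ)).map deg).sum : ℕ) := by
      intro t
      induction t using Multiset.induction_on with
      | empty => simp
      | cons a t ih =>
        intro ht
        have ha := ht a (Multiset.mem_cons_self _ _)
        rw [Multiset.map_cons, Multiset.sum_cons, ih (fun ψ hψ => ht ψ (Multiset.mem_cons_of_mem hψ))]
        by_cases h3 : K ≤ kerS N a
        · rw [Multiset.filter_cons_of_pos (p := fun φ => K ≤ kerS N φ) _ h3, ip_one_of_ker h3, ← ha.isChar.deg_eq]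
          simp
        · rw [Multiset.filter_cons_of_neg (p := fun φ => K ≤ kerS N φ) _ h3]
          have : ip K a (fun _ => 1) = 0 := by
            by_contra h4
            exact h3 (fun k hk => ⟨hKN hk, fix_ker hKN (fun y _ => nz_of_normal K y) ha h4 hk⟩)
          rw [this, zero_add]
    rw [h2 s hs.1] at h1
    exact_mod_cast h1
  · have h1 := hs.deg_sum
    rw [perm_one] at h1
    have h2 : U.index = (s.map deg).sum := by exact_mod_cast h1
    rw [h2, ← hm, ← Multiset.sum_add, ← Multiset.map_add]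
    congr 2
    refine Eq.trans (Multiset.filter_add_not (fun φ => K ≤ kerS N φ) s).symm ?_
    congr

lemma hp_lemma {N : Subgroup G} [hN : N.Normal] {f : ℕ} (h : Hyp N f) {p a : ℕ} (hp : p.Prime)
    (ha : p ^ a ∣ f) (U : Subgroup G) (hU : ¬ p ^ (a + 1) ∣ U.index) :
    ¬ p ∣ U.relIndex ⁅N, (⊤ : Subgroup G)⁆ := by
  obtain ⟨n, m, h1, h2⟩ := star h U
  rintro ⟨r, hr⟩
  apply hU
  rw [hr] at h1
  have hr0 : p * r ≠ 0 := by
    intro h0
    rw [h0, mul_zero] at h1
    exact index_ne_zero_of_finite h1.symm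
  obtain ⟨t, ht⟩ := Nat.exists_eq_succ_of_ne_zero hr0
  have h3 : n * t = f * m := by
    rw [ht, h2, Nat.mul_succ] at h1
    omega
  have h4 : Nat.Coprime (p ^ a) t := by
    apply Nat.Coprime.pow_left
    rw [hp.coprime_iff_not_dvd]
    intro h5
    have h6 : p ∣ t + 1 := ⟨r, ht.symm⟩
    exact hp.one_lt.ne' (Nat.dvd_one.1 ((Nat.dvd_add_right h5).1 h6))
  have h5 : p ^ a ∣ n := h4.dvd_of_dvd_mul_right (h3 ▸ Dvd.dvd.mul_right ha m)
  rw [← h1, pow_succ, ← mul_assoc]
  exact Dvd.dvd.mul_right (Nat.mul_dvd_mul_right h5 p) r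

lemma orbit_deg_dvd {N A : Subgroup G} [hA : A.Normal] (hAN : A ≤ N) {f : ℕ}
    (h : Hyp N f) {μ : G → ℂ} (hμ : IsIrr A μ) :
    (MulAction.stabilizer G μ).index * deg μ ∣ f := by
  obtain ⟨s, hs⟩ := (isChar_perm ⊥ N).exists_dec
  have h1 : ip A (perm ⊥) μ ≠ 0 := by
    unfold ip
    apply mul_ne_zero (inv_ne_zero (card_ne A))
    rw [Finset.sum_eq_single 1]
    · simp only [OneMemClass.coe_one, inv_one, perm_one]
      exact mul_ne_zero (by exact_mod_cast index_ne_zero_of_finite) hμ.one_ne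
    · intro x _ hx
      have : perm ⊥ (x : G) = 0 := by
        simp only [perm, Nat.cast_eq_zero, Finset.card_eq_zero, Finset.filter_eq_empty_iff]
        intro q _ hq
        obtain ⟨g, rfl⟩ := QuotientGroup.mk_surjective q
        rw [MulAction.Quotient.smul_mk, QuotientGroup.eq] at hq
        apply hx
        apply Subtype.ext
        rw [mem_bot, inv_mul_eq_one] at hq
        simpa using hq
      rw [this, zero_mul]
    · simp
  rw [ip_sum hAN hs.2] at h1
  have h2 : ∃ θ ∈ s, ip A θ μ ≠ 0 := by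
    by_contra h3
    push Not at h3
    apply h1
    apply Multiset.sum_eq_zero
    intro z hz
    obtain ⟨θ, hθ, rfl⟩ := Multiset.mem_map.1 hz
    exact h3 θ hθ
  obtain ⟨θ, hθ, h3⟩ := h2
  have hθ' := hs.1 θ hθ
  set I := MulAction.stabilizer G θ with hI
  obtain ⟨t, ht⟩ := (hθ'.isChar.mono hAN).exists_dec
  have h4 := cons_dvd' (U := I) ht (hθ'.isChar.mono hAN) (fun u _ => nz_of_normal A u)
    (fun u hu x _ => by rw [show u • θ = θ from hu])
    ((MulAction.stabilizer G μ).relIndex I * deg μ) 1 (by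
      intro ν hν
      obtain ⟨y, hy, rfl⟩ := clifford hAN (fun y _ => nz_of_normal A y) hθ' hμ (ht.1 ν hν) h3
        ((ht.mem_iff (ht.1 ν hν)).1 hν)
      have hyI : y ∈ I := hθ'.cj_mem hy
      rw [deg_cj, one_mul, ← stab_index, ← stab_index, MulAction.index_stabilizer,
        MulAction.index_stabilizer]
      have := MulAction.orbit_smul (⟨y, hyI⟩ : I) μ
      rw [← this]
      rfl)
  rw [one_mul] at h4
  have h5 : (MulAction.stabilizer G μ).index ∣ (MulAction.stabilizer G μ).relIndex I * I.index := by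
    rw [← inf_relIndex_right, relIndex_mul_index inf_le_right]
    exact index_dvd_of_le inf_le_left
  have h6 : (MulAction.stabilizer G μ).index * deg μ ∣ I.index * deg θ := by
    refine (Nat.mul_dvd_mul_right h5 _).trans ?_
    rw [mul_comm _ I.index, mul_assoc]
    exact Nat.mul_dvd_mul_left _ h4
  rcases h θ hθ' with h7 | h7
  · exact h6.trans (h7 ▸ one_dvd f)
  · exact h7 ▸ h6

end Pool.Agent.P.MP_d0f95c_al
end

-- part Pool.Agent.P.MP_d0f95c_al.Tate
section

set_option autoImplicit false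

open Subgroup

namespace Pool.Agent.P.MP_d0f95c_al

lemma nil_comm {Q : Type*} [Group Q] [Group.IsNilpotent Q] (S : Subgroup Q)
    (h : S ≤ ⁅S, (⊤ : Subgroup Q)⁆) : S = ⊥ := by
  obtain ⟨n, hn⟩ := Subgroup.nilpotent_iff_lowerCentralSeries.1 ‹Group.IsNilpotent Q›
  have key : ∀ m, S ≤ (⊤ : Subgroup Q).lowerCentralSeries m := by
    intro m
    induction m with
    | zero => exact le_top
    | succ m ih =>
      rw [Subgroup.lowerCentralSeries_succ]
      exact h.trans (commutator_mono ih le_rfl)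
  exact le_bot_iff.1 (hn ▸ key n)

lemma nil_center {Q : Type*} [Group Q] [Group.IsNilpotent Q] (S : Subgroup Q) [hS : S.Normal]
    (h : S ≠ ⊥) : ∃ a ∈ S, a ≠ 1 ∧ a ∈ center Q := by
  obtain ⟨n, hn⟩ := Group.IsNilpotent.nilpotent Q
  have key : ∀ m, (∃ a ∈ S, a ≠ 1 ∧ a ∈ Subgroup.upperCentralSeries Q m) →
      ∃ a ∈ S, a ≠ 1 ∧ a ∈ center Q := by
    intro m
    induction m with
    | zero => rintro ⟨a, _, h1, h2⟩; simp at h2; exact absurd h2 h1
    | succ m ih =>
      rintro ⟨a, ha, h1, h2⟩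
      by_cases hc : a ∈ center Q
      · exact ⟨a, ha, h1, hc⟩
      · rw [mem_center_iff] at hc
        push Not at hc
        obtain ⟨g, hg⟩ := hc
        rw [Subgroup.mem_upperCentralSeries_succ_iff] at h2
        refine ih ⟨_, ?_, ?_, h2 g⟩
        · rw [commutatorElement_def]
          have := S.mul_mem ha (hS.conj_mem _ (S.inv_mem ha) g)
          simpa [mul_assoc] using this
        · intro h0
          apply hg
          exact (commutatorElement_eq_one_iff_mul_comm.1 h0).symm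
  obtain ⟨a, ha, h1⟩ := (S.bot_or_exists_ne_one).resolve_left h
  exact key n ⟨a, ha, h1, hn ▸ mem_top a⟩

theorem tate {G : Type} [Group G] [Finite G] (p : ℕ) [hp : Fact p.Prime] (O : Subgroup G)
    [hOn : O.Normal]
    (hO : ∀ (C : Type) [Group C], IsPGroup p C → ∀ σ : O →* C, ∀ x, σ x = 1)
    (hU : ∀ (P : Sylow p G) (U : Subgroup G), U ≤ P → U.relIndex P = p → O ⊓ P ≤ U) :
    ¬ p ∣ Nat.card O := by
  intro hdvd
  obtain ⟨x0, hx0⟩ := exists_prime_orderOf_dvd_card' p hdvd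
  have hx1 : orderOf (x0 : G) = p := by rw [← hx0]; simp
  have hz : IsPGroup p (zpowers (x0 : G)) := by
    apply IsPGroup.of_card (n := 1)
    rw [Nat.card_zpowers, hx1, pow_one]
  obtain ⟨P0, hP⟩ := hz.exists_le_sylow
  have hP0i := P0.not_dvd_index
  have hU' := hU P0
  have hPp : IsPGroup p (P0 : Subgroup G) := P0.isPGroup'
  generalize (P0 : Subgroup G) = P at hP hP0i hU' hPp
  have : Group.IsNilpotent P := hPp.isNilpotent
  set S : Subgroup P := O.subgroupOf P with hS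
  have hSn : S.Normal := inferInstance
  have hSne : S ≠ ⊥ := by
    intro h
    have : (⟨x0, hP (mem_zpowers _)⟩ : P) ∈ S := by simp [hS, mem_subgroupOf]
    rw [h, mem_bot] at this
    have h2 : (x0 : G) = 1 := congrArg Subtype.val this
    rw [h2, orderOf_one] at hx1
    exact hp.out.one_lt.ne hx1
  set M : Subgroup P := ⁅S, (⊤ : Subgroup P)⁆ with hM
  have hMS : M ≤ S := commutator_le_left _ _
  let E := P ⧸ M
  have hEp : IsPGroup p E := hPp.to_quotient M
  let π : G →* G ⧸ O := QuotientGroup.mk' O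
  let ι : E →* G ⧸ O := QuotientGroup.lift M (π.comp P.subtype) (by
    intro x hx
    have := hMS hx
    simpa [π, hS, mem_subgroupOf] using this)
  have hι : ∀ h : P, ι (QuotientGroup.mk h) = π h := fun h => rfl
  let C : Subgroup E := ι.ker
  have hCS : ∀ h : P, (QuotientGroup.mk h : E) ∈ C ↔ h ∈ S := by
    intro h
    simp [C, MonoidHom.mem_ker, hι, π, hS, mem_subgroupOf]
  have hCc : ∀ c ∈ C, ∀ e : E, e * c = c * e := by
    intro c hc e
    obtain ⟨s, rfl⟩ := QuotientGroup.mk_surjective c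
    obtain ⟨h, rfl⟩ := QuotientGroup.mk_surjective e
    have hs := (hCS s).1 hc
    rw [← QuotientGroup.mk_mul, ← QuotientGroup.mk_mul, QuotientGroup.eq]
    have := commutator_mem_commutator (S.inv_mem hs) (mem_top h⁻¹)
    rw [commutatorElement_def] at this
    simpa [mul_assoc] using this
  let _ : CommGroup C := { (inferInstance : Group C) with
    mul_comm := fun a b => Subtype.ext (hCc b b.2 a) }
  have hCp : IsPGroup p C := hEp.to_subgroup C
  let T : Subgroup (G × E) := MonoidHom.eqLocus (π.comp (MonoidHom.fst G E))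
    (ι.comp (MonoidHom.snd G E))
  have hT : ∀ y : G × E, y ∈ T ↔ π y.1 = ι y.2 := fun y => Iff.rfl
  let r : T →* G := (MonoidHom.fst G E).comp T.subtype
  let R : Subgroup T := P.comap r
  have hRidx : ¬ p ∣ R.index := by
    intro h
    apply hP0i
    refine h.trans ?_
    rw [index_comap]
    apply relIndex_dvd_index_of_le
    intro h hh
    exact ⟨⟨(h, QuotientGroup.mk ⟨h, hh⟩), (hT _).2 rfl⟩, rfl⟩
  let φ : R →* C := MonoidHom.mk' (fun y => ⟨y.1.1.2 * (QuotientGroup.mk (⟨y.1.1.1, y.2⟩ : P))⁻¹, by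
      have := (hT _).1 y.1.2
      simp only [C, MonoidHom.mem_ker, map_mul, map_inv, hι, ← this]
      simp⟩) (by
    intro y z
    apply Subtype.ext
    have hz : z.1.1.2 * (QuotientGroup.mk (⟨z.1.1.1, z.2⟩ : P) : E)⁻¹ ∈ C := by
      have := (hT _).1 z.1.2
      simp only [C, MonoidHom.mem_ker, map_mul, map_inv, hι, ← this]
      simp
    have h1 := hCc _ hz (QuotientGroup.mk (⟨y.1.1.1, y.2⟩ : P) : E)⁻¹
    have h2 : (QuotientGroup.mk (⟨(y * z).1.1.1, (y * z).2⟩ : P) : E)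
        = QuotientGroup.mk (⟨y.1.1.1, y.2⟩ : P) * QuotientGroup.mk (⟨z.1.1.1, z.2⟩ : P) := rfl
    change (y.1.1.2 * z.1.1.2) * (QuotientGroup.mk (⟨(y * z).1.1.1, (y * z).2⟩ : P) : E)⁻¹
      = (y.1.1.2 * (QuotientGroup.mk (⟨y.1.1.1, y.2⟩ : P) : E)⁻¹) *
        (z.1.1.2 * (QuotientGroup.mk (⟨z.1.1.1, z.2⟩ : P) : E)⁻¹)
    rw [h2, mul_inv_rev]
    rw [mul_assoc y.1.1.2 (QuotientGroup.mk (⟨y.1.1.1, y.2⟩ : P) : E)⁻¹, h1]
    simp only [mul_assoc])
  let V : T →* C := MonoidHom.transfer φ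
  have hVc : ∀ c : C, V ⟨(1, c.1), (hT _).2 (by simpa using c.2.symm)⟩ = c ^ R.index := by
    intro c
    set z : T := ⟨(1, c.1), (hT _).2 (by simpa using c.2.symm)⟩ with hz
    have hcen : ∀ w : T, w * z = z * w := by
      intro w
      apply Subtype.ext
      apply Prod.ext
      · simp [hz]
      · simp [hz, hCc c.1 c.2]
    have key : ∀ (k : ℕ) (g₀ : T), g₀⁻¹ * z ^ k * g₀ ∈ R → g₀⁻¹ * z ^ k * g₀ = z ^ k := by
      intro k g₀ _
      have : Commute g₀ (z ^ k) := Commute.pow_right (hcen g₀) k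
      rw [mul_assoc, ← this.eq, inv_mul_cancel_left]
    rw [MonoidHom.transfer_eq_pow φ z key]
    apply Subtype.ext
    simp only [φ, MonoidHom.mk'_apply, hz]
    have h1 : (⟨((z ^ R.index : T) : G × E).1, MonoidHom.transfer_eq_pow_aux z key⟩ : P) = 1 := by
      apply Subtype.ext
      simp [hz]
    simp only [hz] at h1
    rw [h1]
    simp
  let σ : O →* T := MonoidHom.mk' (fun o => ⟨(o.1, 1), (hT _).2 (by simp [π])⟩) (by
    intro a b; apply Subtype.ext; simp)
  have hVo : ∀ o : O, V (σ o) = 1 := hO C hCp (V.comp σ)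
  let δ : P →* T := MonoidHom.mk' (fun h => ⟨(h.1, QuotientGroup.mk h), (hT _).2 rfl⟩) (by
    intro a b; rfl)
  let ψ : P →* C := V.comp δ
  have hψ : ∀ (s : P) (hs : s ∈ S), ψ s = (⟨QuotientGroup.mk s, (hCS s).2 hs⟩ : C) ^ R.index := by
    intro s hs
    rw [← hVc]
    have : δ s = σ ⟨s.1, hs⟩ * ⟨(1, QuotientGroup.mk s), (hT _).2 (by
        simpa using ((hCS s).2 hs).symm)⟩ := by
      apply Subtype.ext
      simp [δ, σ]
    simp only [ψ, MonoidHom.comp_apply]
    rw [this, map_mul, hVo, one_mul]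
  have hcop : p.Coprime R.index := (Nat.Prime.coprime_iff_not_dvd hp.out).2 hRidx
  have hsurj : ∀ c : C, ∃ s ∈ S, ψ s = c := by
    intro c
    obtain ⟨d, hd⟩ := (hCp.powEquiv hcop).surjective c
    obtain ⟨s, hs⟩ := QuotientGroup.mk_surjective d.1
    have hs' : s ∈ S := (hCS s).1 (hs ▸ d.2)
    refine ⟨s, hs', ?_⟩
    rw [hψ s hs', ← hd, IsPGroup.powEquiv_apply]
    congr 1
    exact Subtype.ext hs
  have hCnt : Nontrivial C := by
    by_contra hnt
    rw [not_nontrivial_iff_subsingleton] at hnt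
    apply hSne
    apply nil_comm
    intro s hs
    have : (⟨QuotientGroup.mk s, (hCS s).2 hs⟩ : C) = 1 := Subsingleton.elim _ _
    have h2 : (QuotientGroup.mk s : E) = 1 := congrArg Subtype.val this
    exact (QuotientGroup.eq_one_iff s).1 h2
  obtain ⟨n, hn0, hn⟩ := hCp.nontrivial_iff_card.1 hCnt
  obtain ⟨m, rfl⟩ := Nat.exists_eq_succ_of_ne_zero hn0.ne'
  obtain ⟨C0, hC0⟩ := Sylow.exists_subgroup_card_pow_prime (G := C) p (n := m)
    (by rw [hn]; exact pow_dvd_pow p (Nat.le_succ m))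
  have hC0i : C0.index = p := by
    have := C0.card_mul_index
    rw [hC0, hn, pow_succ] at this
    exact Nat.eq_of_mul_eq_mul_left (pow_pos hp.out.pos m) this
  have hψs : Function.Surjective ψ := fun c => by
    obtain ⟨s, _, h⟩ := hsurj c; exact ⟨s, h⟩
  have h1 : (C0.comap ψ).index = p := by rw [index_comap_of_surjective _ hψs, hC0i]
  have h2 := hU' ((C0.comap ψ).map P.subtype) (map_subtype_le _) (by
    rw [relIndex, subgroupOf, comap_map_eq_self_of_injective (subtype_injective _), h1])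
  have h3 : C0 = ⊤ := by
    rw [eq_top_iff]
    intro c _
    obtain ⟨s, hs, rfl⟩ := hsurj c
    obtain ⟨t, ht, hts⟩ := h2 (show (s : G) ∈ O ⊓ P from ⟨hs, s.2⟩)
    have : t = s := Subtype.ext hts
    rw [← this]
    exact ht
  rw [h3, index_top] at hC0i
  exact hp.out.one_lt.ne hC0i

end Pool.Agent.P.MP_d0f95c_al
end

-- part Pool.Agent.P.MP_d0f95c_al.Descent
section

set_option autoImplicit false

open Subgroup Module

namespace Pool.Agent.P.MP_d0f95c_al

open scoped Classical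

variable {G : Type} [Group G] [Fintype G]

attribute [local instance] cjAction

lemma step {M U : Subgroup G} {χ : G → ℂ} (hχ' : IsChar M χ)
    (hU : ∀ u ∈ U, Nz M u) (hχ : ∀ u ∈ U, u • χ = χ) (d : ℕ)
    (hd : ¬ d ∣ U.index * deg χ) :
    ∃ β, IsIrr M β ∧ ip M χ β ≠ 0 ∧ ¬ d ∣ (U ⊓ MulAction.stabilizer G β).index * deg β := by
  obtain ⟨s, hs⟩ := hχ'.exists_dec
  by_contra hc
  push Not at hc
  apply hd
  apply cons_dvd' hs hχ' hU (fun u hu x _ => by rw [hχ u hu])
  intro φ hφ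
  have := hc φ (hs.1 φ hφ) ((hs.mem_iff (hs.1 φ hφ)).1 hφ)
  rwa [← relIndex_mul_index (inf_le_left : U ⊓ MulAction.stabilizer G φ ≤ U), inf_relIndex_left,
    mul_assoc] at this

lemma exists_central {p : ℕ} [Fact p.Prime] {U M Z : Subgroup G} (hMU : M ≤ U)
    (hM : ∀ u ∈ U, ∀ x ∈ M, u⁻¹ * x * u ∈ M) (hZ : ∀ u ∈ U, ∀ x ∈ Z, u⁻¹ * x * u ∈ Z)
    (hp : ∀ u ∈ U, ∃ j, u ^ p ^ j ∈ Z) (hne : ¬ M ≤ Z) :
    ∃ a ∈ M, a ∉ Z ∧ ∀ u ∈ U, u⁻¹ * a⁻¹ * u * a ∈ Z := by
  have hn : ∀ X : Subgroup G, (∀ u ∈ U, ∀ x ∈ X, u⁻¹ * x * u ∈ X) → (X.subgroupOf U).Normal := by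
    intro X hX
    refine ⟨fun x hx u => ?_⟩
    have := hX u⁻¹ (U.inv_mem u.2) x hx
    simpa [mem_subgroupOf] using this
  have hZn := hn Z hZ
  have hMn := hn M hM
  have hQ : IsPGroup p (U ⧸ Z.subgroupOf U) := by
    intro q
    obtain ⟨u, rfl⟩ := QuotientGroup.mk_surjective q
    obtain ⟨j, hj⟩ := hp u u.2
    refine ⟨j, ?_⟩
    rw [← QuotientGroup.mk_pow, QuotientGroup.eq_one_iff]
    simpa [mem_subgroupOf] using hj
  have := hQ.isNilpotent
  have hSn : ((M.subgroupOf U).map (QuotientGroup.mk' (Z.subgroupOf U))).Normal :=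
    hMn.map _ (QuotientGroup.mk'_surjective _)
  obtain ⟨a', ha1, ha2, ha3⟩ := nil_center
    ((M.subgroupOf U).map (QuotientGroup.mk' (Z.subgroupOf U))) (by
      intro h
      apply hne
      intro x hx
      rw [Subgroup.map_eq_bot_iff, QuotientGroup.ker_mk'] at h
      exact h (show (⟨x, hMU hx⟩ : U) ∈ M.subgroupOf U from hx))
  obtain ⟨a, ha, rfl⟩ := ha1
  refine ⟨a, ha, fun h => ha2 ((QuotientGroup.eq_one_iff a).2 h), fun u hu => ?_⟩
  have h1 := mem_center_iff.1 ha3 (QuotientGroup.mk ⟨u, hu⟩)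
  rw [QuotientGroup.mk'_apply, ← QuotientGroup.mk_mul, ← QuotientGroup.mk_mul, eq_comm,
    QuotientGroup.eq] at h1
  simpa [mem_subgroupOf, mul_assoc] using h1

lemma descent {N : Subgroup G} [hN : N.Normal] {K O : Subgroup G} [hKn : K.Normal]
    [hOn : O.Normal] (hON : O ≤ N) (hKN : K ≤ N) {p : ℕ} [Fact p.Prime] (d : ℕ)
    (hend : ∀ U : Subgroup G, O ≤ U → ¬ d ∣ U.index → K ≤ U) {θ : G → ℂ} (hθ : IsIrr N θ)
    (n : ℕ) : ∀ (U : Subgroup G) (β : G → ℂ), Nat.card ↥(U ⊓ N) = n → O ≤ U →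
      (∀ u ∈ U, ∃ j, u ^ p ^ j ∈ O) → IsIrr (U ⊓ N) β → (∀ u ∈ U, u • β = β) →
      (∀ o ∈ O, Scal (U ⊓ N) β o 1) → ¬ d ∣ U.index * deg β → ip (U ⊓ N) θ β ≠ 0 →
      ∀ x ∈ ⁅K, K⁆, Scal N θ x 1 := by
  induction n using Nat.strong_induction_on with
  | _ n ih =>
    intro U β hn hOU hUp hβ hinv hOβ hd hip
    set M := U ⊓ N with hM
    have hMz : ∀ u ∈ U, Nz M u := by
      intro u hu x
      simp only [hM, mem_inf]
      rw [nz_of_mem hu x, nz_of_normal N u x]
    by_cases hc : M ≤ cenS M β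
    · have hKU : K ≤ U := hend U hOU (fun h => hd (Dvd.dvd.mul_right h _))
      have hKM : K ≤ M := le_inf hKU hKN
      have hD : ⁅K, K⁆ ≤ kerS M β := by
        rw [commutator_le]
        intro x hx y hy
        exact comm_ker (hc (hKM hx)) (hc (hKM hy))
      have hDM : ⁅K, K⁆ ≤ M := (commutator_le_left _ _).trans hKM
      intro x hx
      apply fix_ker (hDM.trans inf_le_right) (fun y _ => nz_of_normal _ y) hθ _ hx
      apply ip_trans hDM (hθ.isChar.mono inf_le_right) hβ (isChar_one _) hip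
      rw [ip_one_of_ker hD]
      exact hβ.one_ne
    have hZc : ∀ u ∈ U, ∀ x ∈ cenS M β, u⁻¹ * x * u ∈ cenS M β := by
      rintro u hu x ⟨hx, z, hz0, hz⟩
      exact ⟨(hMz u hu x).2 hx, z, hz0, hz.conj (hMz u hu) (hinv u hu)⟩
    have hRc : ∀ u ∈ U, ∀ x ∈ kerS M β, u⁻¹ * x * u ∈ kerS M β := by
      rintro u hu x ⟨hx, hz⟩
      exact ⟨(hMz u hu x).2 hx, hz.conj (hMz u hu) (hinv u hu)⟩
    have hOM : O ≤ M := le_inf hOU hON
    have hOR : O ≤ kerS M β := fun o ho => ⟨hOM ho, hOβ o ho⟩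
    obtain ⟨a, haM, haZ, ha⟩ := exists_central (p := p) (U := U) (M := M) (Z := cenS M β)
      inf_le_left (fun u hu x hx => (hMz u hu x).2 hx) hZc (fun u hu => by
        obtain ⟨j, hj⟩ := hUp u hu
        exact ⟨j, hOM hj, 1, one_ne_zero, hOβ _ hj⟩) hc
    have haU : a ∈ U := haM.1
    let N1 : Subgroup G :=
      { carrier := {x | x ∈ M ∧ x⁻¹ * a⁻¹ * x * a ∈ kerS M β}
        mul_mem' := fun {x y} hx hy => ⟨M.mul_mem hx.1 hy.1, by
          have := (kerS M β).mul_mem (hRc y hy.1.1 _ hx.2) hy.2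
          have e : y⁻¹ * (x⁻¹ * a⁻¹ * x * a) * y * (y⁻¹ * a⁻¹ * y * a)
              = (x * y)⁻¹ * a⁻¹ * (x * y) * a := by group
          rwa [e] at this⟩
        one_mem' := ⟨M.one_mem, by simp⟩
        inv_mem' := fun {x} hx => ⟨M.inv_mem hx.1, by
          have := hRc x⁻¹ (U.inv_mem hx.1.1) _ ((kerS M β).inv_mem hx.2)
          have e : x⁻¹⁻¹ * (x⁻¹ * a⁻¹ * x * a)⁻¹ * x⁻¹ = x⁻¹⁻¹ * a⁻¹ * x⁻¹ * a := by group
          rwa [e] at this⟩ }
    have hN1 : ∀ x, x ∈ N1 ↔ x ∈ M ∧ x⁻¹ * a⁻¹ * x * a ∈ kerS M β := fun x => Iff.rfl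
    have hN1M : N1 ≤ M := fun x hx => hx.1
    have hcen : ∀ z ∈ cenS M β, ∀ u ∈ U, ∀ w ∈ kerS M β, u⁻¹ * z⁻¹ * u * w * z ∈ kerS M β := by
      rintro z ⟨hz, c, hc0, hc1⟩ u hu w hw
      refine ⟨M.mul_mem (M.mul_mem ((hMz u hu _).2 (M.inv_mem hz)) hw.1) hz, ?_⟩
      have := (((hc1.inv hc0 hz).conj (hMz u hu) (hinv u hu)).mul hw.2 hw.1).mul hc1 hz
      rwa [mul_one, inv_mul_cancel₀ hc0] at this
    have hZN1 : cenS M β ≤ N1 := by
      intro z hz
      refine ⟨hz.1, ?_⟩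
      have := (kerS M β).inv_mem (hcen z hz a haU 1 (kerS M β).one_mem)
      have e : (a⁻¹ * z⁻¹ * a * 1 * z)⁻¹ = z⁻¹ * a⁻¹ * z * a := by group
      rwa [e] at this
    have hN1c : ∀ u ∈ U, ∀ x ∈ N1, u⁻¹ * x * u ∈ N1 := by
      intro u hu x hx
      refine ⟨(hMz u hu x).2 hx.1, ?_⟩
      have h1 := (cenS M β).inv_mem (ha u⁻¹ (U.inv_mem hu))
      have h2 := hRc u hu _ (hcen _ h1 x hx.1.1 _ hx.2)
      have e : u⁻¹ * (x⁻¹ * (u⁻¹⁻¹ * a⁻¹ * u⁻¹ * a)⁻¹⁻¹ * x * (x⁻¹ * a⁻¹ * x * a) *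
          (u⁻¹⁻¹ * a⁻¹ * u⁻¹ * a)⁻¹) * u = (u⁻¹ * x * u)⁻¹ * a⁻¹ * (u⁻¹ * x * u) * a := by group
      rwa [e] at h2
    have hN1z : ∀ u ∈ U, Nz N1 u := by
      intro u hu x
      refine ⟨fun h => ?_, hN1c u hu x⟩
      have := hN1c u⁻¹ (U.inv_mem hu) _ h
      simpa [mul_assoc] using this
    have hON1 : O ≤ N1 := by
      intro o ho
      refine ⟨hOM ho, hOR ?_⟩
      have := O.mul_mem (O.inv_mem ho) ((nz_of_normal O a o).2 ho)
      simpa [mul_assoc] using this
    have haN1 : a ∈ N1 := ⟨haM, by simp⟩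
    have hlt : N1 < M := by
      refine lt_of_le_of_ne hN1M (fun h => haZ ?_)
      obtain ⟨z, hz⟩ := schur_elt hβ haM (fun x hx => by
        have : x ∈ N1 := h ▸ hx
        exact this.2.2)
      exact ⟨haM, z, hz.ne_zero hβ haM, hz⟩
    obtain ⟨β', hβ', hip', hd'⟩ := step (hβ.isChar.mono hN1M) hN1z hinv d hd
    have hcs : ∀ x ∈ N1, ∀ z, Scal M β x z → Scal N1 β' x z :=
      fun x hx z hz => cons_scal hN1M hβ.isChar hβ' hip' hx hz
    have heq : (U ⊓ MulAction.stabilizer G β') ⊓ N = N1 := by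
      apply le_antisymm
      · rintro x ⟨⟨hxU, hxs⟩, hxN⟩
        refine ⟨⟨hxU, hxN⟩, ?_⟩
        obtain ⟨hcM, z, hz0, hz⟩ := ha x hxU
        have hcN1 := hZN1 ⟨hcM, z, hz0, hz⟩
        have h1 := hcs _ hcN1 z hz _ (N1.inv_mem haN1)
        obtain ⟨l, hl⟩ := schur_elt hβ' haN1 (fun y hy =>
          hcs _ (hZN1 (ha y hy.1.1)) 1 hy.2.2)
        have h2 : β' a⁻¹ ≠ 0 := by
          intro h0
          have := hl _ (N1.inv_mem haN1)
          rw [h0, mul_zero, mul_inv_cancel] at this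
          exact hβ'.one_ne this
        have h3 := congrFun (show x • β' = β' from hxs) a⁻¹
        rw [cj_apply] at h3
        rw [mul_inv_cancel_right, h3] at h1
        have h4 : z = 1 := mul_right_cancel₀ h2 (by rw [one_mul]; exact h1.symm)
        exact ⟨hcM, h4 ▸ hz⟩
      · intro x hx
        exact ⟨⟨hx.1.1, hβ'.cj_mem hx⟩, hx.1.2⟩
    refine ih (Nat.card N1) ?_ (U ⊓ MulAction.stabilizer G β') β' (by rw [heq]) ?_
      (fun u hu => hUp u hu.1) (heq ▸ hβ') (fun u hu => hu.2) ?_ hd' ?_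
    · rw [← hn]
      exact Set.ncard_lt_ncard (s := (N1 : Set G)) (t := (M : Set G)) hlt (Set.toFinite _)
    · exact fun o ho => ⟨hOU ho, hβ'.cj_mem (hON1 ho)⟩
    · rw [heq]
      exact fun o ho => hcs o (hON1 ho) 1 (hOβ o ho)
    · rw [heq]
      exact ip_trans hN1M (hθ.isChar.mono inf_le_right) hβ hβ'.isChar hip hip'

end Pool.Agent.P.MP_d0f95c_al
end

-- part Pool.Agent.P.MP_d0f95c_al.Main
section

set_option autoImplicit false

open Subgroup Module

namespace Pool.Agent.P.MP_d0f95c_al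

open scoped Classical

variable {G : Type} [Group G] [Fintype G]

attribute [local instance] cjAction

/-- the subgroup generated by the elements of `K` of order prime to `p` -/
def Op (K : Subgroup G) (p : ℕ) : Subgroup G := closure {x | x ∈ K ∧ (orderOf x).Coprime p}

omit [Fintype G] in
lemma Op_le (K : Subgroup G) (p : ℕ) : Op K p ≤ K := (closure_le _).2 (fun _ hx => hx.1)

omit [Fintype G] in
lemma Op_normal (K : Subgroup G) [hK : K.Normal] (p : ℕ) : (Op K p).Normal := by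
  refine ⟨fun x hx g => ?_⟩
  induction hx using closure_induction with
  | mem y hy =>
    refine subset_closure ⟨hK.conj_mem _ hy.1 g, ?_⟩
    have := (MulAut.conj g).orderOf_eq y
    rw [MulAut.conj_apply] at this
    rw [this]; exact hy.2
  | one => simp
  | mul a b _ _ ha hb =>
    have := (Op K p).mul_mem ha hb
    simpa [mul_assoc] using this
  | inv a _ ha =>
    have := (Op K p).inv_mem ha
    simpa [mul_assoc] using this

lemma Op_pow (K : Subgroup G) {p : ℕ} (hp : p.Prime) {x : G} (hx : x ∈ K) :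
    ∃ j, x ^ p ^ j ∈ Op K p := by
  refine ⟨(orderOf x).factorization p, subset_closure ⟨K.pow_mem hx _, ?_⟩⟩
  have h0 := (orderOf_pos x).ne'
  rw [orderOf_pow' _ (pow_pos hp.pos _).ne', Nat.gcd_eq_right (Nat.ordProj_dvd _ _)]
  exact (Nat.coprime_ordCompl hp h0).symm

omit [Fintype G] in
lemma Op_hom (K : Subgroup G) (p : ℕ) (C : Type) [Group C] (hC : IsPGroup p C)
    (σ : Op K p →* C) (x : Op K p) : σ x = 1 := by
  obtain ⟨x, hx⟩ := x
  induction hx using closure_induction with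
  | mem y hy =>
    rw [← orderOf_eq_one_iff]
    have h1 : orderOf (σ ⟨y, subset_closure hy⟩) ∣ orderOf y :=
      (orderOf_map_dvd σ _).trans (by rw [← Subgroup.orderOf_coe])
    exact Nat.Coprime.eq_one_of_dvd (hC.orderOf_coprime hy.2.symm _) h1
  | one => exact map_one σ
  | mul a b ha' hb' ha hb =>
    have := map_mul σ ⟨a, ha'⟩ ⟨b, hb'⟩
    rw [ha, hb, one_mul] at this
    exact this
  | inv a ha' ha =>
    have := map_inv σ ⟨a, ha'⟩
    rw [ha, inv_one] at this
    exact this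

lemma relIndex_dvd_pow {K O : Subgroup G} [O.Normal] {q : ℕ} (h : ∀ x ∈ K, ∃ j, x ^ q ^ j ∈ O) :
    ∃ n, O.relIndex K ∣ q ^ n := by
  have h1 : IsPGroup q (K.map (QuotientGroup.mk' O)) := by
    rintro ⟨_, x, hx, rfl⟩
    obtain ⟨j, hj⟩ := h x hx
    refine ⟨j, Subtype.ext ?_⟩
    simpa [← QuotientGroup.mk_pow] using hj
  obtain ⟨n, hn⟩ := isPGroup_iff_card_dvd_pow.1 h1
  refine ⟨n, ?_⟩
  rwa [← relIndex_ker, QuotientGroup.ker_mk'] at hn

lemma Op_card {N : Subgroup G} [hN : N.Normal] {f : ℕ} (h : Hyp N f) {p : ℕ} (hp : p.Prime)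
    (hpf : p ∣ f) : ¬ p ∣ Nat.card (Op ⁅N, (⊤ : Subgroup G)⁆ p) := by
  set K := ⁅N, (⊤ : Subgroup G)⁆ with hK
  have := Fact.mk hp
  have := Op_normal K p
  apply tate p (Op K p) (fun C _ hC σ x => Op_hom K p C hC σ x)
  intro P U hUP hU
  have h1 := hp_lemma h hp (a := 1) (by simpa using hpf) U (by
    rw [← relIndex_mul_index hUP, hU, pow_succ', pow_one]
    exact fun h2 => P.not_dvd_index (Nat.dvd_of_mul_dvd_mul_left hp.pos h2))
  have h2 := relIndex_mul_relIndex (U ⊓ K) (K ⊓ P) K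
    (le_inf inf_le_right (inf_le_left.trans hUP)) inf_le_left
  rw [inf_relIndex_right] at h2
  have h3 : IsPGroup p ↥(K ⊓ P) := P.isPGroup'.to_inf_right
  obtain ⟨j, hj⟩ := h3.index ((U ⊓ K).subgroupOf (K ⊓ P))
  have h4 : (U ⊓ K).relIndex (K ⊓ P) = 1 := by
    rcases Nat.eq_zero_or_pos j with h5 | h5
    · rw [relIndex, hj, h5, pow_zero]
    · exfalso
      apply h1
      rw [← h2, relIndex, hj]
      exact Dvd.dvd.mul_right (dvd_pow_self p h5.ne') _
  exact (inf_le_inf_right _ (Op_le K p)).trans ((relIndex_eq_one.1 h4).trans inf_le_left)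

lemma comm_le_Op {N : Subgroup G} [hN : N.Normal] {f : ℕ} (hf : 0 < f) (h : Hyp N f) {p : ℕ}
    (hp : p.Prime) :
    ⁅⁅N, (⊤ : Subgroup G)⁆, ⁅N, (⊤ : Subgroup G)⁆⁆ ≤ Op ⁅N, (⊤ : Subgroup G)⁆ p := by
  set K := ⁅N, (⊤ : Subgroup G)⁆ with hK
  have hKN : K ≤ N := commutator_le_left _ _
  have := Fact.mk hp
  have := Op_normal K p
  set O := Op K p with hO
  have hON : O ≤ N := (Op_le K p).trans hKN
  set a := f.factorization p with ha
  have ha1 : p ^ a ∣ f := Nat.ordProj_dvd _ _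
  have ha2 : ¬ p ^ (a + 1) ∣ f := Nat.pow_succ_factorization_not_dvd hf.ne' hp
  intro x hx
  apply sep hON (((commutator_le_left _ _).trans hKN) hx)
  intro θ hθ hOθ
  have hend : ∀ U : Subgroup G, O ≤ U → ¬ p ^ (a + 1) ∣ U.index → K ≤ U := by
    intro U hOU hU
    have h1 := hp_lemma h hp ha1 U hU
    obtain ⟨n, hn⟩ := relIndex_dvd_pow (K := K) (O := O) (fun y hy => Op_pow K hp hy)
    have h2 := (relIndex_dvd_of_le_left K hOU).trans hn
    rw [← relIndex_eq_one]
    exact Nat.Coprime.eq_one_of_dvd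
      (Nat.Coprime.pow_right n ((hp.coprime_iff_not_dvd.2 h1).symm)) h2
  set I := MulAction.stabilizer G θ with hI
  have hNI : N ≤ I := fun y hy => hθ.cj_mem hy
  obtain ⟨P⟩ : Nonempty (Sylow p I) := inferInstance
  set P' : Subgroup G := (P : Subgroup I).map I.subtype with hP'
  set U : Subgroup G := P' ⊔ O with hU
  have hUI : U ≤ I := sup_le (map_subtype_le _) (hON.trans hNI)
  have hUp : ∀ u ∈ U, ∃ j, u ^ p ^ j ∈ O := by
    intro u hu
    have h1 : IsPGroup p (U.map (QuotientGroup.mk' O)) := by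
      rw [hU, Subgroup.map_sup, (Subgroup.map_eq_bot_iff O).2 (by rw [QuotientGroup.ker_mk']),
        sup_bot_eq]
      exact (P.isPGroup'.map _).map _
    obtain ⟨j, hj⟩ := h1 ⟨_, u, hu, rfl⟩
    refine ⟨j, ?_⟩
    have := congrArg Subtype.val hj
    simpa [← QuotientGroup.mk_pow] using this
  have hd : ¬ p ^ (a + 1) ∣ U.index * deg θ := by
    intro h1
    rw [← relIndex_mul_index hUI, mul_assoc] at h1
    have h2 : ¬ p ∣ U.relIndex I := by
      intro h3
      apply P.not_dvd_index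
      refine h3.trans ((relIndex_dvd_of_le_left I (le_sup_left : P' ≤ U)).trans ?_)
      rw [relIndex, subgroupOf, hP', comap_map_eq_self_of_injective (subtype_injective _)]
    have h3 := (Nat.Coprime.pow_left (a + 1) (hp.coprime_iff_not_dvd.2 h2)).dvd_of_dvd_mul_left h1
    rcases h θ hθ with h4 | h4
    · rw [h4] at h3
      exact ha2 (h3.trans (one_dvd f))
    · rw [h4] at h3
      exact ha2 h3
  have hMz : ∀ u ∈ U, Nz (U ⊓ N) u := by
    intro u hu x
    simp only [mem_inf]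
    rw [nz_of_mem hu x, nz_of_normal N u x]
  obtain ⟨β, hβ, hip, hd'⟩ := step (hθ.isChar.mono (inf_le_right : U ⊓ N ≤ N)) hMz
    (fun u hu => hUI hu) _ hd
  have heq : (U ⊓ MulAction.stabilizer G β) ⊓ N = U ⊓ N :=
    le_antisymm (inf_le_inf_right _ inf_le_left)
      (fun y hy => ⟨⟨hy.1, hβ.cj_mem hy⟩, hy.2⟩)
  have hOM : O ≤ U ⊓ N := le_inf le_sup_right hON
  refine descent hON hKN (p := p) _ hend hθ _ (U ⊓ MulAction.stabilizer G β) β rfl
    (fun o ho => ⟨(hOM ho).1, hβ.cj_mem (hOM ho)⟩) (fun u hu => hUp u hu.1) (heq ▸ hβ)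
    (fun u hu => hu.2) ?_ hd' (heq ▸ hip) x hx
  rw [heq]
  exact fun o ho => cons_scal inf_le_right hθ.isChar hβ hip (hOM ho) (hOθ o ho)

theorem core {N : Subgroup G} [hN : N.Normal] {f : ℕ} (hf : 0 < f) (h : Hyp N f) :
    ∀ x ∈ ⁅N, (⊤ : Subgroup G)⁆, ∀ y ∈ ⁅N, (⊤ : Subgroup G)⁆, x * y = y * x := by
  have hcomm := fun (p : ℕ) (hp : p.Prime) => comm_le_Op hf h hp
  have hcard := fun (p : ℕ) (hp : p.Prime) (hpf : p ∣ f) => Op_card h hp hpf
  have hhp := fun (p a : ℕ) (hp : p.Prime) (ha : p ^ a ∣ f) => hp_lemma h hp ha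
  set K := ⁅N, (⊤ : Subgroup G)⁆ with hK
  have hKN : K ≤ N := commutator_le_left _ _
  set A : Subgroup G := K ⊓ ⨅ p ∈ f.primeFactors, Op K p with hA
  have hmem : ∀ x, x ∈ A ↔ x ∈ K ∧ ∀ p ∈ f.primeFactors, x ∈ Op K p := by
    intro x; simp [hA, mem_iInf]
  have hAn : A.Normal := ⟨fun x hx g => by
    rw [hmem] at hx ⊢
    exact ⟨Normal.conj_mem inferInstance _ hx.1 g,
      fun p hp => (Op_normal K p).conj_mem _ (hx.2 p hp) g⟩⟩
  have hAK : A ≤ K := inf_le_left
  have hAN : A ≤ N := hAK.trans hKN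
  have hcop : (Nat.card A).Coprime f := by
    apply Nat.Coprime.symm
    apply Nat.coprime_of_dvd
    intro p hp hpf hpA
    apply hcard p hp hpf
    refine hpA.trans (card_dvd_of_le (fun x hx => ((hmem x).1 hx).2 p ?_))
    exact Nat.mem_primeFactors.2 ⟨hp, hpf, hf.ne'⟩
  have hpow : ∀ x ∈ K, ∃ j, x ^ f ^ j ∈ A := by
    intro x hx
    have h1 : ∀ p : ℕ, ∃ j, p.Prime → x ^ p ^ j ∈ Op K p := by
      intro p
      by_cases hp : p.Prime
      · obtain ⟨j, hj⟩ := Op_pow K hp hx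
        exact ⟨j, fun _ => hj⟩
      · exact ⟨0, fun h => absurd h hp⟩
    choose j hj using h1
    refine ⟨∑ p ∈ f.primeFactors, j p, (hmem _).2 ⟨K.pow_mem hx _, fun p hp => ?_⟩⟩
    have h2 : p ^ j p ∣ f ^ ∑ p ∈ f.primeFactors, j p :=
      (pow_dvd_pow_of_dvd (Nat.dvd_of_mem_primeFactors hp) _).trans
        (pow_dvd_pow f (Finset.single_le_sum (fun _ _ => Nat.zero_le _) hp))
    obtain ⟨c, hc⟩ := h2
    rw [hc, pow_mul]
    exact (Op K p).pow_mem (hj p (Nat.prime_of_mem_primeFactors hp)) c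
  have hlin : ∀ μ, IsIrr A μ → deg μ = 1 := by
    intro μ hμ
    exact Nat.Coprime.eq_one_of_dvd
      (Nat.Coprime.coprime_dvd_left (deg_dvd hμ) hcop)
      ((Dvd.intro_left _ rfl).trans (orbit_deg_dvd hAN h hμ))
  have hstab : ∀ μ, IsIrr A μ → K ≤ MulAction.stabilizer G μ := by
    intro μ hμ
    rw [← relIndex_eq_one]
    by_contra hne
    obtain ⟨p, hp, hpd⟩ := Nat.exists_prime_and_dvd hne
    obtain ⟨n, hn⟩ := relIndex_dvd_pow hpow
    have hAT : A ≤ MulAction.stabilizer G μ := fun y hy => hμ.cj_mem hy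
    have hpf : p ∣ f := hp.dvd_of_dvd_pow (hpd.trans ((relIndex_dvd_of_le_left K hAT).trans hn))
    refine hhp p _ hp (Nat.ordProj_dvd f p) _ (fun h1 => ?_) hpd
    exact Nat.pow_succ_factorization_not_dvd hf.ne' hp
      (h1.trans ((Dvd.intro _ rfl).trans (orbit_deg_dvd hAN h hμ)))
  have hcent : ∀ k ∈ K, ∀ a ∈ A, k * a = a * k := by
    intro k hk a ha
    have hka : k⁻¹ * a * k ∈ A := (nz_of_normal A k a).2 ha
    have h1 : a⁻¹ * (k⁻¹ * a * k) ∈ (⊥ : Subgroup G) := by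
      apply sep bot_le (A.mul_mem (A.inv_mem ha) hka)
      intro μ hμ _
      have h2 := linear_scal hμ.isChar (hlin μ hμ) ha
      have h0 := h2.ne_zero hμ ha
      have h3 := (h2.inv h0 ha).mul (h2.conj (nz_of_normal A k) (hstab μ hμ hk)) hka
      rwa [inv_mul_cancel₀ h0] at h3
    rw [mem_bot, inv_mul_eq_one] at h1
    conv_lhs => rw [h1]
    group
  intro x hx y hy
  have hc : x * y * x⁻¹ * y⁻¹ ∈ A := by
    have h1 : x * y * x⁻¹ * y⁻¹ ∈ ⁅K, K⁆ := commutator_mem_commutator hx hy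
    exact (hmem _).2 ⟨commutator_le_left _ _ h1,
      fun p hp => hcomm p (Nat.prime_of_mem_primeFactors hp) h1⟩
  set c := x * y * x⁻¹ * y⁻¹ with hcdef
  have h1 : ∀ m : ℕ, x ^ m * y = c ^ m * y * x ^ m := by
    intro m
    induction m with
    | zero => simp
    | succ m ih =>
      have h2 : x * c ^ m = c ^ m * x := hcent x hx _ (A.pow_mem hc m)
      rw [pow_succ', mul_assoc, ih, ← mul_assoc, ← mul_assoc, h2, pow_succ c, hcdef]
      group
  obtain ⟨j, hj⟩ := hpow x hx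
  have h2 : c ^ f ^ j = 1 := by
    have h3 := h1 (f ^ j)
    rw [← hcent y hy _ hj, mul_assoc] at h3
    exact (right_eq_mul.1 h3)
  have h3 : orderOf c = 1 :=
    Nat.Coprime.eq_one_of_dvd
      (Nat.Coprime.coprime_dvd_left (orderOf_dvd_natCard A hc) (hcop.pow_right j))
      (orderOf_dvd_of_pow_eq_one h2)
  rw [orderOf_eq_one_iff, hcdef, mul_inv_eq_one, mul_inv_eq_iff_eq_mul] at h3
  exact h3

lemma hyp_of {N : Subgroup G} [hN : N.Normal] {f : ℕ} (h : mcdSet N = {1, (f : ℂ)}) :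
    Hyp N f := by
  intro θ hθ
  have hdeg := hθ.isChar.deg_eq
  have hip := ip_irr hθ hθ
  have hcj := fun g : G => (hθ.cj (nz_of_normal N g)).2
  obtain ⟨⟨V, _, _, _, ρ, hρ, h1⟩, h2⟩ := hθ
  have hs : CategoryTheory.Simple (FDRep.of ρ) := by
    rw [FDRep.simple_iff_char_is_norm_one]
    rw [if_pos rfl] at hip
    unfold ip at hip
    rw [inv_mul_eq_one₀ (card_ne N)] at hip
    rw [hip]
    apply Finset.sum_congr rfl
    intro x _
    rw [h1 x, show θ (x : G)⁻¹ = ρ.character x⁻¹ from h1 x⁻¹]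
    rfl
  have hm : orbitTotal N ρ.character 1 ∈ mcdSet N := ⟨ρ.character, ⟨FDRep.of ρ, hs, rfl⟩, rfl⟩
  have hr : Set.range (conjBy N ρ.character)
      = (fun (ψ : G → ℂ) (x : N) => ψ x) '' MulAction.orbit G θ := by
    ext φ
    constructor
    · rintro ⟨g, rfl⟩
      refine ⟨g⁻¹ • θ, ⟨g⁻¹, rfl⟩, ?_⟩
      funext x
      simp only [cj_apply, conjBy, inv_inv]
      exact h1 ⟨_, _⟩
    · rintro ⟨_, ⟨g, rfl⟩, rfl⟩
      refine ⟨g⁻¹, ?_⟩
      funext x
      simp only [cj_apply, conjBy, inv_inv]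
      exact (h1 ⟨_, _⟩).symm
  have hinj : Set.InjOn (fun (ψ : G → ℂ) (x : N) => ψ x) (MulAction.orbit G θ) := by
    rintro _ ⟨g, rfl⟩ _ ⟨g', rfl⟩ he
    funext x
    by_cases hx : x ∈ N
    · exact congrFun he ⟨x, hx⟩
    · exact (hcj g x hx).trans (hcj g' x hx).symm
  have hfin : (Set.range (conjBy N ρ.character)).Finite := Set.finite_range _
  have hval : orbitTotal N ρ.character 1
      = (((MulAction.stabilizer G θ).index * deg θ : ℕ) : ℂ) := by
    unfold orbitTotal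
    rw [finsum_mem_eq_finite_toFinset_sum _ hfin, Finset.sum_apply,
      Finset.sum_congr rfl (g := fun _ => θ 1), Finset.sum_const, nsmul_eq_mul,
      ← Set.ncard_eq_toFinset_card _ hfin, hr, hinj.ncard_image, MulAction.index_stabilizer]
    · push_cast; rw [hdeg]
    · intro φ hφ
      obtain ⟨g, rfl⟩ : φ ∈ Set.range (conjBy N ρ.character) := by simpa using hφ
      simp only [conjBy]
      rw [← h1]
      simp
  rw [h, hval] at hm
  rcases hm with h3 | h3
  · left; exact_mod_cast h3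
  · right; exact_mod_cast Set.mem_singleton_iff.1 h3

theorem main (G : Type) [Group G] [Finite G] (N : Subgroup G) [N.Normal] (f : ℕ) (hf : 0 < f)
    (h : mcdSet N = {1, (f : ℂ)}) :
    ∀ x ∈ ⁅N, (⊤ : Subgroup G)⁆, ∀ y ∈ ⁅N, (⊤ : Subgroup G)⁆, x * y = y * x := by
  have := Fintype.ofFinite G
  exact core hf (hyp_of h)

end Pool.Agent.P.MP_d0f95c_al
end
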